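import Mathlib.Algebra.MvPolynomial.PDeriv
import Mathlib.Analysis.Calculus.FDeriv.Defs
import Mathlib.Analysis.Analytic.Basic
import Mathlib.Analysis.CStarAlgebra.Classes
import Mathlib.RingTheory.Nullstellensatz

namespace Pool.Agent.MP_05b4bd_ag

open MvPolynomial Topology

/-- Polynomials in `x = X 0`, `y = X 1`. -/
abbrev Poly := MvPolynomial (Fin 2) ℂ

/-- The pair `(P, Q)` stands for the 1-form `P dy - Q dx`. -/
abbrev Form := Poly × Poly

/-- All coefficients of `P` and of `Q`. -/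
noncomputable def co (ω : Form) : Bool × (Fin 2 →₀ ℕ) → ℂ :=
  fun k => coeff k.2 (cond k.1 ω.1 ω.2)

/-- Zariski closure in coefficient space. -/
def zcl (S : Set Form) : Set Form := co ⁻¹' zeroLocus ℂ (vanishingIdeal ℂ (co '' S))

/-- Zariski irreducible: the vanishing ideal is prime. -/
def Irred (Z : Set Form) : Prop := (vanishingIdeal ℂ (co '' Z)).IsPrime

/-- Irreducible component: maximal irreducible subset. -/
def IsComponent (M Z : Set Form) : Prop := Maximal (fun Y => Y ⊆ M ∧ Irred Y) Z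

/-- The form `df = f_x dx + f_y dy`. -/
noncomputable def dform (f : Poly) : Form := (pderiv 1 f, -pderiv 0 f)

/-- `P_x Q_y - P_y Q_x`. -/
noncomputable def jac (ω : Form) : Poly :=
  pderiv 0 ω.1 * pderiv 1 ω.2 - pderiv 1 ω.1 * pderiv 0 ω.2

/-- `p` is a reduced singular point, and in local analytic coordinates `φ = (u, v)` centred at
`p` the function `u ^ 2 + v ^ 2` is a first integral. -/
def IsCenter (ω : Form) (p : Fin 2 → ℂ) : Prop :=
  eval p ω.1 = 0 ∧ eval p ω.2 = 0 ∧ eval p (jac ω) ≠ 0 ∧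
  ∃ φ : (Fin 2 → ℂ) → (Fin 2 → ℂ), AnalyticAt ℂ φ p ∧ φ p = 0 ∧
    Function.Bijective (fderiv ℂ φ p) ∧
    ∀ᶠ z in 𝓝 p, fderiv ℂ (fun w => φ w 0 ^ 2 + φ w 1 ^ 2) z ![eval z ω.1, eval z ω.2] = 0

/-- Foliations of degree `d` (affine cone). -/
def Fol (d : ℕ) : Set Form :=
  {ω | IsRelPrime ω.1 ω.2 ∧ max ω.1.totalDegree ω.2.totalDegree = d}

/-- The centre variety (affine cone). -/
def M (d : ℕ) : Set Form := zcl {ω | ω ∈ Fol d ∧ ∃ p, IsCenter ω p}

/-- Logarithmic forms `f_1 ⋯ f_s ∑ l_i df_i / f_i` with `deg f_i ≤ δ_i`. -/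
def L {s : ℕ} (δ : Fin s → ℕ) : Set Form :=
  {ω | ∃ (f : Fin s → Poly) (l : Fin s → ℂ), (∀ i, (f i).totalDegree ≤ δ i) ∧
    ω = ∑ i, (C (l i) * ∏ j ∈ Finset.univ.erase i, f j) • dform (f i)}

/-- The family `A_i`: multiples of `p ^ (i + 1) * (dp / p + d (q / p ^ i))`. -/
def A (d i : ℕ) : Set Form :=
  {ω | ∃ (p q : Poly) (c : ℂ), p.totalDegree ≤ 1 ∧ q.totalDegree ≤ d ∧
    ω = c • (p ^ i • dform p + p • dform q - ((i : Poly) * q) • dform p)}

/-- The family `B_1`: multiples of `q * (dq / q + dp)`. -/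
def B (d : ℕ) : Set Form :=
  {ω | ∃ (p q : Poly) (c : ℂ), p.totalDegree ≤ 1 ∧ q.totalDegree ≤ d ∧
    ω = c • (dform q + q • dform p)}

/-- All critical points are non-degenerate, with pairwise distinct critical values. -/
def Morse (f : Poly) : Prop :=
  (∀ p, (∀ i, eval p (pderiv i f) = 0) → eval p (jac (dform f)) ≠ 0) ∧
  ∀ p q, (∀ i, eval p (pderiv i f) = 0) → (∀ i, eval q (pderiv i f) = 0) →
    eval p f = eval q f → p = q

end Pool.Agent.MP_05b4bd_ag
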