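import Mathlib.Algebra.AffineMonoid.UniqueSums
import Mathlib.LinearAlgebra.QuadraticForm.Basic
import Mathlib.Tactic.Monotonicity.Lemmas
import Mathlib.RingTheory.Finiteness.Prod
import Mathlib.RingTheory.Flat.TorsionFree
import Mathlib.Algebra.Order.Ring.Star
import Mathlib.RingTheory.PicardGroup
import Mathlib.Analysis.Complex.Polynomial.Basic
import Mathlib.Analysis.Analytic.Binomial
import Mathlib.Analysis.Analytic.Polynomial
import Mathlib.RingTheory.SimpleRing.Principal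
import Mathlib.Order.CompletePartialOrder
import Mathlib.RingTheory.MvPolynomial.IrreducibleQuadratic
import Mathlib.SetTheory.ZFC.PSet
import Pool.Agent.MP_05b4bd_ag.Defs

-- ======== part 0: formerly Pool.Agent.MP_05b4bd_ag.Zar
section MrgPart0

namespace Pool.Agent.MP_05b4bd_ag

open MvPolynomial Topology

abbrev Co := MvPolynomial (Bool × (Fin 2 →₀ ℕ)) ℂ

noncomputable def ev (R : Co) (ω : Form) : ℂ := aeval (co ω) R

theorem ev_mul (R S : Co) (ω : Form) : ev (R * S) ω = ev R ω * ev S ω := by simp [ev]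
theorem ev_add (R S : Co) (ω : Form) : ev (R + S) ω = ev R ω + ev S ω := by simp [ev]
theorem ev_C (c : ℂ) (ω : Form) : ev (C c) ω = c := by simp [ev]
theorem ev_X (k) (ω : Form) : ev (X k) ω = co ω k := by simp [ev]

theorem mem_van {S : Set Form} {R : Co} :
    R ∈ vanishingIdeal ℂ (co '' S) ↔ ∀ η ∈ S, ev R η = 0 := by
  rw [mem_vanishingIdeal_iff]
  constructor
  · intro h η hη; exact h _ ⟨η, hη, rfl⟩
  · rintro h _ ⟨η, hη, rfl⟩; exact h η hη

theorem mem_zcl {S : Set Form} {ω : Form} :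
    ω ∈ zcl S ↔ ∀ R : Co, (∀ η ∈ S, ev R η = 0) → ev R ω = 0 := by
  unfold zcl
  rw [Set.mem_preimage, mem_zeroLocus_iff]
  constructor
  · intro h R hR; exact h R (mem_van.2 hR)
  · intro h R hR; exact h R (mem_van.1 hR)

theorem subset_zcl (S : Set Form) : S ⊆ zcl S := fun ω h => mem_zcl.2 fun _ hR => hR ω h

theorem zcl_subset {S T : Set Form} (h : S ⊆ zcl T) : zcl S ⊆ zcl T := fun _ hω =>
  mem_zcl.2 fun R hR => mem_zcl.1 hω R fun _ hη => mem_zcl.1 (h hη) R hR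

theorem zcl_mono {S T : Set Form} (h : S ⊆ T) : zcl S ⊆ zcl T :=
  zcl_subset (h.trans (subset_zcl T))

theorem irred_iff {Z : Set Form} : Irred Z ↔ Z.Nonempty ∧ ∀ R S : Co,
    (∀ ω ∈ Z, ev R ω * ev S ω = 0) → (∀ ω ∈ Z, ev R ω = 0) ∨ (∀ ω ∈ Z, ev S ω = 0) := by
  unfold Irred
  rw [Ideal.isPrime_iff]
  constructor
  · rintro ⟨h1, h2⟩
    refine ⟨?_, fun R S h => ?_⟩
    · by_contra hne
      rw [Set.not_nonempty_iff_eq_empty] at hne
      apply h1
      rw [hne, Set.image_empty, vanishingIdeal_empty]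
    · have := @h2 R S (mem_van.2 fun ω hω => by rw [ev_mul]; exact h ω hω)
      rwa [mem_van, mem_van] at this
  · rintro ⟨⟨ω, hω⟩, h2⟩
    refine ⟨fun h => ?_, fun {R S} h => ?_⟩
    · have : (C 1 : Co) ∈ vanishingIdeal ℂ (co '' Z) := by rw [h]; trivial
      have := mem_van.1 this ω hω
      rw [ev_C] at this
      exact one_ne_zero this
    · rw [mem_van, mem_van]
      exact h2 R S fun η hη => by rw [← ev_mul]; exact mem_van.1 h η hη

theorem Irred.zcl {S : Set Form} (h : Irred S) : Irred (zcl S) := by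
  rw [irred_iff] at h ⊢
  refine ⟨h.1.mono (subset_zcl S), fun R T hRT => ?_⟩
  rcases h.2 R T fun ω hω => hRT ω (subset_zcl S hω) with h' | h'
  · exact Or.inl fun ω hω => mem_zcl.1 hω R h'
  · exact Or.inr fun ω hω => mem_zcl.1 hω T h'

theorem exists_component {M Z0 : Set Form} (h : Irred Z0) (hM : Z0 ⊆ M) :
    ∃ Z, IsComponent M Z ∧ Z0 ⊆ Z := by
  obtain ⟨Z, h1, h2⟩ := zorn_subset_nonempty {Y | Y ⊆ M ∧ Irred Y} (fun c hc hch hne => by
    refine ⟨⋃₀ c, ⟨Set.sUnion_subset fun Y hY => (hc hY).1, ?_⟩, fun Y hY => Set.subset_sUnion_of_mem hY⟩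
    rw [irred_iff]
    obtain ⟨Y0, hY0⟩ := hne
    refine ⟨(irred_iff.1 (hc hY0).2).1.mono (Set.subset_sUnion_of_mem hY0), fun R S hRS => ?_⟩
    by_contra hcon
    push Not at hcon
    obtain ⟨⟨a, ⟨Ya, hYa, ha⟩, hRa⟩, ⟨b, ⟨Yb, hYb, hb⟩, hSb⟩⟩ := hcon
    have key : ∀ Y ∈ c, a ∈ Y → b ∈ Y → False := fun Y hY haY hbY => by
      rcases (irred_iff.1 (hc hY).2).2 R S fun ω hω => hRS ω ⟨Y, hY, hω⟩ with h' | h'
      · exact hRa (h' a haY)
      · exact hSb (h' b hbY)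
    rcases hch.total hYa hYb with h' | h'
    · exact key Yb hYb (h' ha) hb
    · exact key Ya hYa ha (h' hb)) Z0 ⟨hM, h⟩
  exact ⟨Z, h2, h1⟩

/-! Polynomial curves -/

def PS (f : ℂ → ℂ) : Prop := ∃ r : Polynomial ℂ, ∀ τ, f τ = r.eval τ

def PC (f : ℂ → Poly) : Prop :=
  ∃ F : MvPolynomial (Fin 2) (Polynomial ℂ), ∀ τ, f τ = map (Polynomial.evalRingHom τ) F

def PF (γ : ℂ → Form) : Prop := PC (fun τ => (γ τ).1) ∧ PC (fun τ => (γ τ).2)

theorem PS.const (c : ℂ) : PS fun _ => c := ⟨Polynomial.C c, by simp⟩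
theorem PS.id : PS fun τ => τ := ⟨Polynomial.X, by simp⟩
theorem PS.add {f g : ℂ → ℂ} (hf : PS f) (hg : PS g) : PS fun τ => f τ + g τ := by
  obtain ⟨r, hr⟩ := hf; obtain ⟨s, hs⟩ := hg; exact ⟨r + s, by simp [hr, hs]⟩
theorem PS.sub {f g : ℂ → ℂ} (hf : PS f) (hg : PS g) : PS fun τ => f τ - g τ := by
  obtain ⟨r, hr⟩ := hf; obtain ⟨s, hs⟩ := hg; exact ⟨r - s, by simp [hr, hs]⟩
theorem PS.mul {f g : ℂ → ℂ} (hf : PS f) (hg : PS g) : PS fun τ => f τ * g τ := by
  obtain ⟨r, hr⟩ := hf; obtain ⟨s, hs⟩ := hg; exact ⟨r * s, by simp [hr, hs]⟩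
theorem PS.line (a b : ℂ) : PS fun τ => a + τ * (b - a) :=
  (PS.const a).add (PS.id.mul (PS.const _))

theorem PS.eq_zero {f : ℂ → ℂ} (hf : PS f) (h : {τ | f τ = 0}.Infinite) (τ : ℂ) : f τ = 0 := by
  obtain ⟨r, hr⟩ := hf
  have : r = 0 := Polynomial.eq_zero_of_infinite_isRoot r (by
    simpa [hr, Polynomial.IsRoot] using h)
  simp [hr, this]

theorem PS.finite {f : ℂ → ℂ} (hf : PS f) {τ : ℂ} (h : f τ ≠ 0) : {τ | f τ = 0}.Finite := by
  by_contra hc
  exact h (hf.eq_zero hc τ)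

theorem PS.continuous {f : ℂ → ℂ} (hf : PS f) : Continuous f := by
  obtain ⟨r, hr⟩ := hf
  have : f = fun τ => r.eval τ := funext hr
  rw [this]; exact r.continuous

theorem PC.const (c : Poly) : PC fun _ => c :=
  ⟨map Polynomial.C c, fun τ => by
    rw [map_map]
    have : (Polynomial.evalRingHom τ).comp Polynomial.C = RingHom.id ℂ := by ext; simp
    rw [this, map_id]⟩
theorem PS.toC {f : ℂ → ℂ} (hf : PS f) : PC fun τ => C (f τ) := by
  obtain ⟨r, hr⟩ := hf; exact ⟨C r, by simp [hr]⟩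
theorem PC.add {f g : ℂ → Poly} (hf : PC f) (hg : PC g) : PC fun τ => f τ + g τ := by
  obtain ⟨r, hr⟩ := hf; obtain ⟨s, hs⟩ := hg; exact ⟨r + s, by simp [hr, hs]⟩
theorem PC.sub {f g : ℂ → Poly} (hf : PC f) (hg : PC g) : PC fun τ => f τ - g τ := by
  obtain ⟨r, hr⟩ := hf; obtain ⟨s, hs⟩ := hg; exact ⟨r - s, by simp [hr, hs]⟩
theorem PC.neg {f : ℂ → Poly} (hf : PC f) : PC fun τ => - f τ := by
  obtain ⟨r, hr⟩ := hf; exact ⟨- r, by simp [hr]⟩
theorem PC.mul {f g : ℂ → Poly} (hf : PC f) (hg : PC g) : PC fun τ => f τ * g τ := by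
  obtain ⟨r, hr⟩ := hf; obtain ⟨s, hs⟩ := hg; exact ⟨r * s, by simp [hr, hs]⟩
theorem PC.pow {f : ℂ → Poly} (hf : PC f) (n : ℕ) : PC fun τ => f τ ^ n := by
  obtain ⟨r, hr⟩ := hf; exact ⟨r ^ n, by simp [hr]⟩
theorem PC.smul {c : ℂ → ℂ} {f : ℂ → Poly} (hc : PS c) (hf : PC f) : PC fun τ => c τ • f τ := by
  simpa only [smul_eq_C_mul] using hc.toC.mul hf
theorem PC.pderiv {f : ℂ → Poly} (hf : PC f) (i : Fin 2) : PC fun τ => pderiv i (f τ) := by
  obtain ⟨r, hr⟩ := hf; exact ⟨MvPolynomial.pderiv i r, by simp [hr, pderiv_map]⟩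
theorem PC.sum {ι : Type*} (s : Finset ι) {f : ι → ℂ → Poly} (hf : ∀ i ∈ s, PC (f i)) :
    PC fun τ => ∑ i ∈ s, f i τ := by
  classical
  induction s using Finset.induction_on with
  | empty => simpa using PC.const 0
  | insert a s ha ih =>
    simp only [Finset.sum_insert ha]
    exact (hf a (by simp)).add (ih fun i hi => hf i (by simp [hi]))
theorem PC.prod {ι : Type*} (s : Finset ι) {f : ι → ℂ → Poly} (hf : ∀ i ∈ s, PC (f i)) :
    PC fun τ => ∏ i ∈ s, f i τ := by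
  classical
  induction s using Finset.induction_on with
  | empty => simpa using PC.const 1
  | insert a s ha ih =>
    simp only [Finset.prod_insert ha]
    exact (hf a (by simp)).mul (ih fun i hi => hf i (by simp [hi]))
theorem PC.line (a b : Poly) : PC fun τ => a + τ • (b - a) :=
  (PC.const a).add (PC.smul PS.id (PC.const _))
theorem PC.coeff {f : ℂ → Poly} (hf : PC f) (m : Fin 2 →₀ ℕ) : PS fun τ => coeff m (f τ) := by
  obtain ⟨r, hr⟩ := hf; exact ⟨MvPolynomial.coeff m r, by simp [hr, coeff_map]⟩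
theorem PC.aeval {f : Fin 2 → ℂ → Poly} (hf : ∀ i, PC (f i)) (p : Poly) :
    PC fun τ => aeval (fun i => f i τ) p := by
  induction p using MvPolynomial.induction_on with
  | C a => simpa using PC.const (C a)
  | add p q hp hq => simpa using hp.add hq
  | mul_X p i hp => simpa using hp.mul (hf i)

theorem PF.add {f g : ℂ → Form} (hf : PF f) (hg : PF g) : PF fun τ => f τ + g τ :=
  ⟨hf.1.add hg.1, hf.2.add hg.2⟩
theorem PF.sub {f g : ℂ → Form} (hf : PF f) (hg : PF g) : PF fun τ => f τ - g τ :=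
  ⟨hf.1.sub hg.1, hf.2.sub hg.2⟩
theorem PF.psmul {c : ℂ → Poly} {f : ℂ → Form} (hc : PC c) (hf : PF f) : PF fun τ => c τ • f τ :=
  ⟨hc.mul hf.1, hc.mul hf.2⟩
theorem PF.smul {c : ℂ → ℂ} {f : ℂ → Form} (hc : PS c) (hf : PF f) : PF fun τ => c τ • f τ :=
  ⟨PC.smul hc hf.1, PC.smul hc hf.2⟩
theorem PC.dform {f : ℂ → Poly} (hf : PC f) : PF fun τ => dform (f τ) :=
  ⟨hf.pderiv 1, (hf.pderiv 0).neg⟩
theorem PF.const (c : Form) : PF fun _ => c := ⟨PC.const _, PC.const _⟩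
theorem PF.sum {ι : Type*} (s : Finset ι) {f : ι → ℂ → Form} (hf : ∀ i ∈ s, PF (f i)) :
    PF fun τ => ∑ i ∈ s, f i τ := by
  classical
  induction s using Finset.induction_on with
  | empty => simpa using PF.const 0
  | insert a s ha ih =>
    simp only [Finset.sum_insert ha]
    exact (hf a (by simp)).add (ih fun i hi => hf i (by simp [hi]))
theorem PF.jac {f : ℂ → Form} (hf : PF f) : PC fun τ => jac (f τ) :=
  ((hf.1.pderiv 0).mul (hf.2.pderiv 1)).sub ((hf.1.pderiv 1).mul (hf.2.pderiv 0))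

theorem PF.ev {γ : ℂ → Form} (h : PF γ) (R : Co) : PS fun τ => ev R (γ τ) := by
  induction R using MvPolynomial.induction_on with
  | C a => simpa [ev_C] using PS.const a
  | add p q hp hq => simpa [ev_add] using hp.add hq
  | mul_X p k hp =>
    simp only [ev_mul, ev_X]
    refine hp.mul ?_
    obtain ⟨b, m⟩ := k
    cases b
    · exact h.2.coeff m
    · exact h.1.coeff m

theorem PF.mem_zcl {γ : ℂ → Form} (h : PF γ) {S : Set Form} (hS : {τ | γ τ ∈ zcl S}.Infinite)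
    (τ : ℂ) : γ τ ∈ zcl S :=
  MP_05b4bd_ag.mem_zcl.2 fun R hR => (h.ev R).eq_zero
    (hS.mono fun _ ht => MP_05b4bd_ag.mem_zcl.1 ht R hR) τ

theorem infinite_of_nhdsNE {s : Set ℂ} (h : ∀ᶠ τ in 𝓝[≠] (0 : ℂ), τ ∈ s) : s.Infinite := by
  intro hf
  have h2 : ∀ᶠ τ in 𝓝[≠] (0 : ℂ), τ ∉ s := by
    have hc : IsClosed (s \ {0}) := (hf.subset Set.sdiff_subset).isClosed
    have : (s \ {0})ᶜ ∈ 𝓝 (0 : ℂ) := hc.isOpen_compl.mem_nhds (by simp)
    filter_upwards [self_mem_nhdsWithin, mem_nhdsWithin_of_mem_nhds this] with τ h1 h2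
    intro h3; exact h2 ⟨h3, h1⟩
  obtain ⟨τ, h1, h2⟩ := (h.and h2).exists
  exact h2 h1

theorem PF.mem_zcl_of_ne {γ : ℂ → Form} (h : PF γ) {S : Set Form}
    (hS : ∀ τ, τ ≠ 0 → γ τ ∈ zcl S) : γ 0 ∈ zcl S :=
  h.mem_zcl (infinite_of_nhdsNE (by
    filter_upwards [self_mem_nhdsWithin] with τ hτ using hS τ hτ)) 0

theorem irred_of_curves {S : Set Form} (hne : S.Nonempty)
    (h : ∀ a ∈ S, ∀ b ∈ S, ∃ γ, PF γ ∧ γ 0 = a ∧ γ 1 = b ∧ ∀ τ, γ τ ∈ S) : Irred S := by
  rw [irred_iff]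
  refine ⟨hne, fun R T hRT => ?_⟩
  by_contra hcon
  push Not at hcon
  obtain ⟨⟨a, ha, hRa⟩, ⟨b, hb, hTb⟩⟩ := hcon
  obtain ⟨γ, hγ, h0, h1, hS⟩ := h a ha b hb
  have f1 := (hγ.ev R).finite (τ := 0) (by rwa [h0])
  have f2 := (hγ.ev T).finite (τ := 1) (by rwa [h1])
  refine Set.infinite_univ (α := ℂ) ((f1.union f2).subset fun τ _ => ?_)
  exact mul_eq_zero.1 (hRT _ (hS τ))

/-! Regular functions on forms of bounded degree -/

def V (d : ℕ) : Set Form := {ω | ω.1.totalDegree ≤ d ∧ ω.2.totalDegree ≤ d}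

theorem totalDegree_le_iff {f : Poly} {d : ℕ} :
    f.totalDegree ≤ d ↔ ∀ m : Fin 2 →₀ ℕ, d < m.degree → coeff m f = 0 := by
  constructor
  · intro h m hm
    by_contra hc
    have := le_totalDegree (mem_support_iff.2 hc)
    rw [Finsupp.degree_apply] at hm
    exact absurd (this.trans h) (not_le.2 hm)
  · intro h
    refine Finset.sup_le fun m hm => ?_
    by_contra hc
    exact mem_support_iff.1 hm (h m (by rw [Finsupp.degree_apply]; exact not_le.1 hc))

theorem zcl_subset_V {S : Set Form} {d : ℕ} (h : S ⊆ V d) : zcl S ⊆ V d := fun ω hω => by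
  constructor
  · refine totalDegree_le_iff.2 fun m hm => ?_
    have := mem_zcl.1 hω (X (true, m)) fun η hη => by
      rw [ev_X]; exact totalDegree_le_iff.1 (h hη).1 m hm
    rwa [ev_X] at this
  · refine totalDegree_le_iff.2 fun m hm => ?_
    have := mem_zcl.1 hω (X (false, m)) fun η hη => by
      rw [ev_X]; exact totalDegree_le_iff.1 (h hη).2 m hm
    rwa [ev_X] at this

def Reg (d : ℕ) (f : Form → ℂ) : Prop := ∃ R : Co, ∀ ω ∈ V d, f ω = ev R ω

theorem Reg.const (d : ℕ) (c : ℂ) : Reg d fun _ => c := ⟨C c, fun _ _ => (ev_C _ _).symm⟩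
theorem Reg.add {d : ℕ} {f g : Form → ℂ} (hf : Reg d f) (hg : Reg d g) :
    Reg d fun ω => f ω + g ω := by
  obtain ⟨r, hr⟩ := hf; obtain ⟨s, hs⟩ := hg
  exact ⟨r + s, fun ω hω => by simp only [ev_add, hr ω hω, hs ω hω]⟩
theorem Reg.mul {d : ℕ} {f g : Form → ℂ} (hf : Reg d f) (hg : Reg d g) :
    Reg d fun ω => f ω * g ω := by
  obtain ⟨r, hr⟩ := hf; obtain ⟨s, hs⟩ := hg
  exact ⟨r * s, fun ω hω => by simp only [ev_mul, hr ω hω, hs ω hω]⟩
theorem Reg.sum {d : ℕ} {ι : Type*} (s : Finset ι) {f : ι → Form → ℂ} (hf : ∀ i ∈ s, Reg d (f i)) :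
    Reg d fun ω => ∑ i ∈ s, f i ω := by
  classical
  induction s using Finset.induction_on with
  | empty => simpa using Reg.const d 0
  | insert a s ha ih =>
    simp only [Finset.sum_insert ha]
    exact (hf a (by simp)).add (ih fun i hi => hf i (by simp [hi]))
theorem Reg.prod {d : ℕ} {ι : Type*} (s : Finset ι) {f : ι → Form → ℂ} (hf : ∀ i ∈ s, Reg d (f i)) :
    Reg d fun ω => ∏ i ∈ s, f i ω := by
  classical
  induction s using Finset.induction_on with
  | empty => simpa using Reg.const d 1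
  | insert a s ha ih =>
    simp only [Finset.prod_insert ha]
    exact (hf a (by simp)).mul (ih fun i hi => hf i (by simp [hi]))

theorem eq_sum_monomial {f : Poly} {d : ℕ} (h : f.totalDegree ≤ d) :
    f = ∑ m ∈ (Finsupp.finite_of_degree_le (σ := Fin 2) d).toFinset,
      coeff m f • (monomial m (1 : ℂ) : Poly) := by
  conv_lhs => rw [f.as_sum]
  simp only [smul_monomial, smul_eq_mul, mul_one]
  refine Finset.sum_subset (fun m hm => ?_) fun m _ hm => ?_
  · simp only [Set.Finite.mem_toFinset, Set.mem_ofPred_eq]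
    by_contra hc
    exact mem_support_iff.1 hm (totalDegree_le_iff.1 h m (not_le.1 hc))
  · rw [notMem_support_iff.1 hm, monomial_zero]

theorem Reg.linear (d : ℕ) (l : Form →ₗ[ℂ] ℂ) : Reg d l := by
  set s := (Finsupp.finite_of_degree_le (σ := Fin 2) d).toFinset
  have h1 : ∀ k, Reg d fun ω => co ω k := fun k => ⟨X k, fun ω _ => (ev_X _ _).symm⟩
  obtain ⟨R, hR⟩ := (Reg.sum (d := d) s (f := fun m ω => co ω (true, m) * l (monomial m 1, 0))
    fun m _ => (h1 _).mul (Reg.const _ _)).add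
    (Reg.sum (d := d) s (f := fun m ω => co ω (false, m) * l (0, monomial m 1))
    fun m _ => (h1 _).mul (Reg.const _ _))
  refine ⟨R, fun ω hω => ?_⟩
  rw [← hR ω hω]
  have e : ω = ∑ m ∈ s, coeff m ω.1 • ((monomial m 1, 0) : Form) +
      ∑ m ∈ s, coeff m ω.2 • ((0, monomial m 1) : Form) := by
    refine Prod.ext ?_ ?_
    · simp only [Prod.fst_add, Prod.fst_sum, Prod.smul_fst, smul_zero, Finset.sum_const_zero,
        add_zero]
      exact eq_sum_monomial hω.1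
    · simp only [Prod.snd_add, Prod.snd_sum, Prod.smul_snd, smul_zero, Finset.sum_const_zero,
        zero_add]
      exact eq_sum_monomial hω.2
  conv_lhs => rw [e]
  simp only [map_add, map_sum, map_smul, smul_eq_mul]
  rfl

theorem exists_sep {E W : Type*} [AddCommGroup E] [Module ℂ E] [Module.Finite ℂ E]
    [AddCommGroup W] [Module ℂ W] (d : ℕ) (Λ : Form →ₗ[ℂ] E →ₗ[ℂ] W) {ω0 : Form}
    (h0 : ω0 ∈ V d) (h : Function.Injective (Λ ω0)) :
    ∃ R : Co, ev R ω0 ≠ 0 ∧ ∀ ω ∈ V d, ev R ω ≠ 0 → Function.Injective (Λ ω) := by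
  classical
  obtain ⟨g, hg⟩ := (Λ ω0).exists_leftInverse_of_injective (LinearMap.ker_eq_bot.2 h)
  let b := Module.finBasis ℂ E
  have hreg : Reg d fun ω => LinearMap.det (g ∘ₗ Λ ω) := by
    have : (fun ω => LinearMap.det (g ∘ₗ Λ ω)) =
        fun ω => (LinearMap.toMatrix b b (g ∘ₗ Λ ω)).det := by
      funext ω; rw [LinearMap.det_toMatrix]
    rw [this]
    simp only [Matrix.det_apply', LinearMap.toMatrix_apply]
    refine Reg.sum _ fun σ _ => (Reg.const _ _).mul (Reg.prod _ fun i _ => ?_)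
    exact Reg.linear d ((b.coord (σ i)) ∘ₗ g ∘ₗ (Λ.flip (b i)))
  obtain ⟨R, hR⟩ := hreg
  refine ⟨R, ?_, fun ω hω hne => ?_⟩
  · rw [← hR ω0 h0]; simp [hg]
  · rw [← hR ω hω] at hne
    have hu : IsUnit (g ∘ₗ Λ ω) := (LinearMap.isUnit_iff_isUnit_det _).2 (Ne.isUnit hne)
    have := (Module.End.isUnit_iff _).1 hu
    exact Function.Injective.of_comp (f := g) this.1

end Pool.Agent.MP_05b4bd_ag

end MrgPart0

-- ======== part 1: formerly Pool.Agent.MP_05b4bd_ag.Center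
section MrgPart1

namespace Pool.Agent.MP_05b4bd_ag

open MvPolynomial Topology

theorem exists_kappa (γ : ℂ) : ∃ κ : ℂ → ℂ, AnalyticAt ℂ κ 0 ∧ κ 0 = γ * (γ - 1) / 2 ∧
    ∀ t : ℂ, (1 + t) ^ γ = 1 + γ * t + t ^ 2 * κ t := by
  have hp := Complex.one_add_cpow_hasFPowerSeriesAt_zero (a := γ)
  set k : ℂ → ℂ := fun x => (1 + x) ^ γ with hk
  have h1 := hp.has_fpower_series_dslope_fslope
  have h2 := h1.has_fpower_series_dslope_fslope
  have e1 : dslope k 0 0 = γ := by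
    rw [← h1.coeff_zero 1, ← FormalMultilinearSeries.coeff, FormalMultilinearSeries.coeff_fslope,
      FormalMultilinearSeries.coeff, binomialSeries_apply]
    simp
  have e2 : dslope (dslope k 0) 0 0 = γ * (γ - 1) / 2 := by
    rw [← h2.coeff_zero 1, ← FormalMultilinearSeries.coeff, FormalMultilinearSeries.coeff_fslope,
      FormalMultilinearSeries.coeff_fslope,
      FormalMultilinearSeries.coeff, binomialSeries_apply, Ring.choose_eq_smul]
    simp [descPochhammer_succ_right, Polynomial.smeval_mul, Polynomial.smeval_sub]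
    ring
  refine ⟨dslope (dslope k 0) 0, h2.analyticAt, e2, fun t => ?_⟩
  have a1 := sub_smul_dslope k 0 t
  have a2 := sub_smul_dslope (dslope k 0) 0 t
  simp only [sub_zero, smul_eq_mul, e1] at a1 a2
  have a3 : k 0 = 1 := by simp [hk]
  rw [a3] at a1
  change k t = _
  linear_combination -a1 - t * a2

theorem hasFDerivAt_eval (f : Poly) (z : Fin 2 → ℂ) :
    HasFDerivAt (fun w : Fin 2 → ℂ => eval w f)
      (eval z (pderiv 0 f) • ContinuousLinearMap.proj (R := ℂ) (φ := fun _ : Fin 2 => ℂ) 0 +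
       eval z (pderiv 1 f) • ContinuousLinearMap.proj (R := ℂ) (φ := fun _ : Fin 2 => ℂ) 1) z := by
  induction f using MvPolynomial.induction_on with
  | C a =>
    simp only [eval_C]
    refine (hasFDerivAt_const a z).congr_fderiv ?_
    ext; simp
  | add p q hp hq =>
    simp only [map_add]
    refine (hp.add hq).congr_fderiv ?_
    ext; simp; ring
  | mul_X p i hp =>
    simp only [map_mul, eval_X]
    refine (hp.mul (hasFDerivAt_apply i z)).congr_fderiv ?_
    ext v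
    fin_cases i <;> simp <;> ring

theorem analyticAt_eval (f : Poly) (z : Fin 2 → ℂ) :
    AnalyticAt ℂ (fun w : Fin 2 → ℂ => eval w f) z :=
  AnalyticOnNhd.eval_mvPolynomial f z (Set.mem_univ _)

theorem taylor1 (R : Poly) (p : Fin 2 → ℂ) : ∃ a b : Poly,
    R = C (eval p R) + (a * (X 0 - C (p 0)) + b * (X 1 - C (p 1))) := by
  induction R using MvPolynomial.induction_on with
  | C a => exact ⟨0, 0, by simp⟩
  | add P Q hP hQ =>
    obtain ⟨a, b, h⟩ := hP
    obtain ⟨a', b', h'⟩ := hQ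
    exact ⟨a + a', b + b', by rw [map_add, map_add]; linear_combination h + h'⟩
  | mul_X P i hP =>
    obtain ⟨a, b, h⟩ := hP
    fin_cases i
    · exact ⟨a * X 0 + C (eval p P), b * X 0, by
        simp only [Fin.zero_eta, map_mul, eval_X]; linear_combination X 0 * h⟩
    · exact ⟨a * X 1, b * X 1 + C (eval p P), by
        simp only [Fin.mk_one, map_mul, eval_X]; linear_combination X 1 * h⟩

theorem taylor1' (R : Poly) (p : Fin 2 → ℂ) : ∃ a b : Poly,
    R = C (eval p R) + (a * (X 0 - C (p 0)) + b * (X 1 - C (p 1))) ∧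
    eval p a = eval p (pderiv 0 R) ∧ eval p b = eval p (pderiv 1 R) := by
  obtain ⟨a, b, h⟩ := taylor1 R p
  refine ⟨a, b, h, ?_, ?_⟩
  · have := congrArg (fun f => eval p (pderiv 0 f)) h
    simpa using this.symm
  · have := congrArg (fun f => eval p (pderiv 1 f)) h
    simpa using this.symm

theorem taylor2 (R : Poly) (p : Fin 2 → ℂ) (h0 : eval p (pderiv 0 R) = 0)
    (h1 : eval p (pderiv 1 R) = 0) : ∃ a b c : Poly,
    R = C (eval p R) + (a * (X 0 - C (p 0)) ^ 2 + b * (X 0 - C (p 0)) * (X 1 - C (p 1)) +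
      c * (X 1 - C (p 1)) ^ 2) ∧ 2 * eval p a = eval p (pderiv 0 (pderiv 0 R)) ∧
      eval p b = eval p (pderiv 0 (pderiv 1 R)) ∧ 2 * eval p c = eval p (pderiv 1 (pderiv 1 R)) := by
  obtain ⟨a, b, h, ha, hb⟩ := taylor1' R p
  obtain ⟨a0, a1, ha'⟩ := taylor1 a p
  obtain ⟨b0, b1, hb'⟩ := taylor1 b p
  rw [ha, h0] at ha'
  rw [hb, h1] at hb'
  have key : R = C (eval p R) + (a0 * (X 0 - C (p 0)) ^ 2 + (a1 + b0) * (X 0 - C (p 0)) * (X 1 - C (p 1)) +
      b1 * (X 1 - C (p 1)) ^ 2) := by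
    rw [map_zero] at ha' hb'
    linear_combination h + (X 0 - C (p 0)) * ha' + (X 1 - C (p 1)) * hb'
  refine ⟨a0, a1 + b0, b1, key, ?_, ?_, ?_⟩
  · have := congrArg (fun f => eval p (pderiv 0 (pderiv 0 f))) key
    simp [pow_two] at this
    rw [this]; ring
  · have := congrArg (fun f => eval p (pderiv 0 (pderiv 1 f))) key
    simp [pow_two] at this
    rw [this]; simp
  · have := congrArg (fun f => eval p (pderiv 1 (pderiv 1 f))) key
    simp [pow_two] at this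
    rw [this]; ring

theorem hasFDerivAt_mul_coord {g : (Fin 2 → ℂ) → ℂ} {p : Fin 2 → ℂ} (hg : AnalyticAt ℂ g p)
    (i : Fin 2) : HasFDerivAt (fun z => g z * (z i - p i))
      (g p • ContinuousLinearMap.proj (R := ℂ) (φ := fun _ : Fin 2 => ℂ) i) p := by
  refine (hg.differentiableAt.hasFDerivAt.mul ((hasFDerivAt_apply i p).sub_const (p i))).congr_fderiv ?_
  ext; simp

theorem morse_lemma {a b c : (Fin 2 → ℂ) → ℂ} {p : Fin 2 → ℂ} (ha : AnalyticAt ℂ a p)
    (hb : AnalyticAt ℂ b p) (hc : AnalyticAt ℂ c p) (hΔ : b p ^ 2 - 4 * a p * c p ≠ 0) :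
    ∃ φ : (Fin 2 → ℂ) → (Fin 2 → ℂ), AnalyticAt ℂ φ p ∧ φ p = 0 ∧
      Function.Bijective (fderiv ℂ φ p) ∧ ∀ᶠ z in 𝓝 p, φ z 0 ^ 2 + φ z 1 ^ 2 =
        a z * (z 0 - p 0) ^ 2 + b z * (z 0 - p 0) * (z 1 - p 1) + c z * (z 1 - p 1) ^ 2 := by
  set Δ : (Fin 2 → ℂ) → ℂ := fun z => b z ^ 2 - 4 * a z * c z with hΔdef
  have hΔa : AnalyticAt ℂ Δ p := by fun_prop
  have hΔp : Δ p ≠ 0 := hΔ
  obtain ⟨s0, hs0, hbs⟩ : ∃ s0 : ℂ, s0 ^ 2 = Δ p ∧ b p + s0 ≠ 0 := by
    obtain ⟨s, hs⟩ := IsAlgClosed.exists_pow_nat_eq (Δ p) (n := 2) (by norm_num)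
    by_cases h : b p + s = 0
    · refine ⟨-s, by rw [neg_sq, hs], fun h' => hΔp ?_⟩
      have : s = 0 := by linear_combination (h - h') / 2
      rw [← hs, this]; ring
    · exact ⟨s, hs, h⟩
  have hs0ne : s0 ≠ 0 := fun h => hΔp (by rw [← hs0, h]; ring)
  set σ : (Fin 2 → ℂ) → ℂ := fun z => s0 * Complex.exp (Complex.log (Δ z / Δ p) / 2) with hσ
  have hσa : AnalyticAt ℂ σ p := by
    have : AnalyticAt ℂ (fun z => Complex.log (Δ z / Δ p)) p :=
      AnalyticAt.clog (by fun_prop) (by rw [div_self hΔp]; exact Complex.one_mem_slitPlane)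
    fun_prop
  have hσp : σ p = s0 := by simp [hσ, div_self hΔp]
  have hσ2 : ∀ z, Δ z ≠ 0 → σ z ^ 2 = Δ z := fun z hz => by
    simp only [hσ]
    rw [mul_pow, hs0, pow_two, ← Complex.exp_add, add_halves,
      Complex.exp_log (div_ne_zero hz hΔp)]
    field_simp
  set e : (Fin 2 → ℂ) → ℂ := fun z => b z + σ z with he
  have hea : AnalyticAt ℂ e p := hb.add hσa
  have hep : e p ≠ 0 := by simpa [he, hσp] using hbs
  set U : (Fin 2 → ℂ) → ℂ := fun z => a z * (z 0 - p 0) + e z / 2 * (z 1 - p 1) with hU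
  set W : (Fin 2 → ℂ) → ℂ := fun z => 1 * (z 0 - p 0) + 2 * c z / e z * (z 1 - p 1) with hW
  have he2 : AnalyticAt ℂ (fun z => e z / 2) p := by fun_prop
  have hce : AnalyticAt ℂ (fun z => 2 * c z / e z) p := AnalyticAt.div (by fun_prop) hea hep
  have hUd := (hasFDerivAt_mul_coord ha 0).add (hasFDerivAt_mul_coord he2 1)
  have hWd := (hasFDerivAt_mul_coord (g := fun _ => 1) (p := p) analyticAt_const 0).add
    (hasFDerivAt_mul_coord hce 1)
  have hw : ∀ i : Fin 2, AnalyticAt ℂ (fun z : Fin 2 → ℂ => z i - p i) p := fun i =>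
    ((ContinuousLinearMap.proj (R := ℂ) (φ := fun _ : Fin 2 => ℂ) i).analyticAt p).sub
      analyticAt_const
  have hUa : AnalyticAt ℂ U p := (ha.mul (hw 0)).add (he2.mul (hw 1))
  have hWa : AnalyticAt ℂ W p := (analyticAt_const.mul (hw 0)).add (hce.mul (hw 1))
  set φ : (Fin 2 → ℂ) → (Fin 2 → ℂ) :=
    fun z => ![(U z + W z) / 2, (U z - W z) / (2 * Complex.I)] with hφ
  have hφa : AnalyticAt ℂ φ p := by
    rw [analyticAt_pi_iff]
    intro i
    fin_cases i
    · simp only [Fin.zero_eta, Matrix.cons_val_zero]; fun_prop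
    · simp only [Fin.mk_one, Matrix.cons_val_one, Matrix.cons_val_zero]; fun_prop
  refine ⟨φ, hφa, ?_, ?_, ?_⟩
  · ext i; fin_cases i <;> simp [hφ, hU, hW]
  · have hinj : Function.Injective (fderiv ℂ φ p) := by
      rw [injective_iff_map_eq_zero]
      intro v hv
      have hd := hφa.differentiableAt.hasFDerivAt
      have d0 := (hasFDerivAt_apply (𝕜 := ℂ) 0 (φ p)).comp p hd
      have d1 := (hasFDerivAt_apply (𝕜 := ℂ) 1 (φ p)).comp p hd
      have e0 := congrArg (fun l => l v) (d0.unique ((hUd.add hWd).mul_const (1 / 2) |>.congr_of_eventuallyEq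
        (Filter.Eventually.of_forall fun z => by simp [hφ, hU, hW]; ring)))
      have e1 := congrArg (fun l => l v) (d1.unique ((hUd.sub hWd).mul_const (2 * Complex.I)⁻¹ |>.congr_of_eventuallyEq
        (Filter.Eventually.of_forall fun z => by
          simp only [hφ, hU, hW, Function.comp_apply, Matrix.cons_val_one, Matrix.cons_val_zero,
            Pi.sub_apply, Pi.add_apply, div_eq_mul_inv])))
      simp [hv] at e0 e1
      have hs : s0 ^ 2 = b p ^ 2 - 4 * a p * c p := hs0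
      have hee : e p = b p + s0 := by simp [he, hσp]
      have u0 : a p * v 0 + e p / 2 * v 1 = 0 := by linear_combination e1 / 2 - e0
      have w0 : v 0 + 2 * c p / e p * v 1 = 0 := by linear_combination - e1 / 2 - e0
      have v1 : v 1 = 0 := by
        have : s0 * v 1 = 0 := by
          rw [hee] at u0 w0
          field_simp at w0
          have : (b p + s0) * (s0 * v 1) = 0 := by
            linear_combination (b p + s0) * u0 - a p * w0 + v 1 / 2 * hs
          exact (mul_eq_zero.1 this).resolve_left hbs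
        exact (mul_eq_zero.1 this).resolve_left hs0ne
      ext i; fin_cases i
      · simpa [v1] using w0
      · simpa using v1
    exact ⟨hinj, (LinearMap.injective_iff_surjective (f := (fderiv ℂ φ p).toLinearMap)).1 hinj⟩
  · filter_upwards [hΔa.continuousAt.eventually_ne hΔp, hea.continuousAt.eventually_ne hep]
      with z h1 h2
    have h3 := hσ2 z h1
    have h4 : φ z 0 ^ 2 + φ z 1 ^ 2 = U z * W z := by
      simp only [hφ, Matrix.cons_val_zero, Matrix.cons_val_one]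
      field_simp
      rw [Complex.I_sq]; ring
    rw [h4]
    simp only [hU, hW]
    have h5 : e z = b z + σ z := rfl
    field_simp
    rw [h5]
    simp only [hΔdef] at h3
    linear_combination (z 0 - p 0) * (z 1 - p 1) * h3

noncomputable def Dm (β α : ℂ) (F G : Poly) : Form :=
  (C β * F : Poly) • dform G + (C α * G : Poly) • dform F

theorem Dm_fst (β α : ℂ) (F G : Poly) :
    (Dm β α F G).1 = C β * F * pderiv 1 G + C α * G * pderiv 1 F := rfl

theorem Dm_snd (β α : ℂ) (F G : Poly) :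
    (Dm β α F G).2 = -(C β * F * pderiv 0 G + C α * G * pderiv 0 F) := by
  simp [Dm, dform]; ring

theorem pderiv_comm (f : Poly) : pderiv 1 (pderiv 0 f) = pderiv 0 (pderiv 1 f) := by
  induction f using MvPolynomial.induction_on with
  | C a => simp
  | add p q hp hq => simp [hp, hq]
  | mul_X p i hp => fin_cases i <;> simp [hp, add_comm]

theorem center_Dm {β α : ℂ} {F G : Poly} {p : Fin 2 → ℂ} (hβ : β ≠ 0) (hF : eval p F ≠ 0)
    (h1 : eval p (Dm β α F G).1 = 0) (h2 : eval p (Dm β α F G).2 = 0)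
    (hj : eval p (jac (Dm β α F G)) ≠ 0) : IsCenter (Dm β α F G) p := by
  refine ⟨h1, h2, hj, ?_⟩
  obtain ⟨γ, rfl⟩ : ∃ γ, α = γ * β := ⟨α / β, by field_simp⟩
  obtain ⟨κ, hκa, hκ0, hκ⟩ := exists_kappa γ
  set s := eval p F with hs
  set T : Poly := C s⁻¹ * F - 1 with hT
  have hTp : eval p T = 0 := by simp [hT, ← hs, hF]
  obtain ⟨t0, t1, ht, ht0, ht1⟩ := taylor1' T p
  rw [hTp, map_zero, zero_add] at ht
  have g1 : s * eval p (pderiv 1 G) + γ * eval p G * eval p (pderiv 1 F) = 0 := by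
    rw [Dm_fst] at h1
    simp only [map_add, map_mul, eval_C, ← hs] at h1
    apply mul_left_cancel₀ hβ; linear_combination h1
  have g0 : s * eval p (pderiv 0 G) + γ * eval p G * eval p (pderiv 0 F) = 0 := by
    rw [Dm_snd] at h2
    simp only [map_neg, map_add, map_mul, eval_C, ← hs] at h2
    apply mul_left_cancel₀ hβ; linear_combination -h2
  have dT : ∀ i, pderiv i T = C s⁻¹ * pderiv i F := fun i => by simp [hT]
  obtain ⟨a', b', c', hR, ha', hb', hc'⟩ := taylor2 (G * (1 + C γ * T)) p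
    (by simp [dT, hTp]; field_simp; linear_combination g0)
    (by simp [dT, hTp]; field_simp; linear_combination g1)
  have hκT : AnalyticAt ℂ (fun z => κ (eval z T)) p :=
    AnalyticAt.comp (g := κ) (by rw [hTp]; exact hκa) (analyticAt_eval T p)
  have hA := analyticAt_eval
  obtain ⟨φ, hφa, hφ0, hφb, hφ⟩ := morse_lemma (p := p)
    (a := fun z => eval z a' + eval z G * eval z t0 ^ 2 * κ (eval z T))
    (b := fun z => eval z b' + 2 * eval z G * eval z t0 * eval z t1 * κ (eval z T))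
    (c := fun z => eval z c' + eval z G * eval z t1 ^ 2 * κ (eval z T))
    ((hA _ _).add (((hA _ _).mul ((hA _ _).pow 2)).mul hκT))
    ((hA _ _).add ((((analyticAt_const.mul (hA _ _)).mul (hA _ _)).mul (hA _ _)).mul hκT))
    ((hA _ _).add (((hA _ _).mul ((hA _ _).pow 2)).mul hκT))
    (by
      intro h0
      apply hj
      simp only [hTp, hκ0, ht0, ht1, dT, map_mul, eval_C] at h0
      simp [dT, hTp] at ha' hb' hc'
      have ea : eval p a' = _ := eq_div_of_mul_eq two_ne_zero ((mul_comm _ _).trans ha')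
      have ec : eval p c' = _ := eq_div_of_mul_eq two_ne_zero ((mul_comm _ _).trans hc')
      rw [ea, ec, hb'] at h0
      have e0 : eval p (pderiv 0 G) = - γ * eval p G * eval p (pderiv 0 F) / s := by
        field_simp; linear_combination g0
      have e1 : eval p (pderiv 1 G) = - γ * eval p G * eval p (pderiv 1 F) / s := by
        field_simp; linear_combination g1
      simp [jac, Dm_fst, Dm_snd, pderiv_comm, ← hs]
      rw [e0, e1] at h0 ⊢
      field_simp at h0 ⊢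
      linear_combination (-β ^ 2 / 4) * h0)
  refine ⟨φ, hφa, hφ0, hφb, ?_⟩
  have hH : (fun w => φ w 0 ^ 2 + φ w 1 ^ 2) =ᶠ[𝓝 p]
      fun z => eval z G * (1 + eval z T) ^ γ - eval p G := by
    filter_upwards [hφ] with z hz
    rw [hz, hκ]
    have e1 := congrArg (eval z) hR
    have e2 := congrArg (eval z) ht
    simp [hTp] at e1 e2
    linear_combination -e1 - eval z G * κ (eval z T) * (eval z T + (eval z t0 * (z 0 - p 0) +
      eval z t1 * (z 1 - p 1))) * e2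
  have hsl : ∀ᶠ z in 𝓝 p, 1 + eval z T ∈ Complex.slitPlane := by
    refine ContinuousAt.eventually_mem (f := fun z => 1 + eval z T)
      (continuousAt_const.add (hA T p).continuousAt) ?_
    refine Complex.isOpen_slitPlane.mem_nhds ?_
    simp [hTp]
  filter_upwards [hH.fderiv (𝕜 := ℂ), hsl] with z hz hz'
  rw [hz]
  have d1 := (Complex.hasStrictDerivAt_cpow_const (c := γ) hz').hasDerivAt.comp_hasFDerivAt z
    ((hasFDerivAt_eval T z).const_add 1)
  have d2 := ((hasFDerivAt_eval G z).mul d1).sub_const (eval p G)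
  have d3 : fderiv ℂ (fun z => eval z G * (1 + eval z T) ^ γ - eval p G) z = _ := d2.fderiv
  rw [d3]
  have e : (1 + eval z T) ^ γ = (1 + eval z T) ^ (γ - 1) * (s⁻¹ * eval z F) := by
    rw [Complex.cpow_sub _ _ (Complex.slitPlane_ne_zero hz'), Complex.cpow_one]
    have : s⁻¹ * eval z F = 1 + eval z T := by simp [hT]
    rw [this, div_mul_cancel₀ _ (Complex.slitPlane_ne_zero hz')]
  simp [Dm_fst, Dm_snd, dT]
  rw [e]; ring

end Pool.Agent.MP_05b4bd_ag

end MrgPart1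

-- ======== part 2: formerly Pool.Agent.MP_05b4bd_ag.Generic
section MrgPart2

namespace Pool.Agent.MP_05b4bd_ag

open MvPolynomial Topology

theorem PC.contDiff {f : ℂ → Poly} (hf : PC f) :
    ContDiff ℂ 1 (fun x : ℂ × (Fin 2 → ℂ) => eval x.2 (f x.1)) := by
  obtain ⟨F, hF⟩ := hf
  simp only [hF]
  clear hF
  induction F using MvPolynomial.induction_on with
  | C a =>
    simp only [map_C, eval_C, Polynomial.coe_evalRingHom]
    have : ContDiff ℂ 1 (fun t : ℂ => a.eval t) := a.differentiable.contDiff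
    exact this.comp contDiff_fst
  | add p q hp hq => simpa using hp.add hq
  | mul_X p i hp =>
    simp only [map_mul, map_X, eval_X]
    exact hp.mul ((contDiff_apply ℂ ℂ i).comp contDiff_snd)

theorem eventually_sing {γ : ℂ → Form} (hγ : PF γ) {p : Fin 2 → ℂ} (h1 : eval p (γ 0).1 = 0)
    (h2 : eval p (γ 0).2 = 0) (hj : eval p (jac (γ 0)) ≠ 0) {U : Set (ℂ × (Fin 2 → ℂ))}
    (hU : U ∈ 𝓝 ((0 : ℂ), p)) :
    ∀ᶠ τ in 𝓝 (0 : ℂ), ∃ z, (τ, z) ∈ U ∧ eval z (γ τ).1 = 0 ∧ eval z (γ τ).2 = 0 := by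
  set Ψ : ℂ × (Fin 2 → ℂ) → ℂ × ℂ × ℂ :=
    fun x => (x.1, eval x.2 (γ x.1).1, eval x.2 (γ x.1).2) with hΨ
  have hc : ContDiff ℂ 1 Ψ := contDiff_fst.prodMk (hγ.1.contDiff.prodMk hγ.2.contDiff)
  have hs := (hc.contDiffAt (x := (0, p))).hasStrictFDerivAt one_ne_zero
  set D := fderiv ℂ Ψ (0, p) with hD
  have e1 : ∀ x, (D x).1 = x.1 := fun x => by
    have := (hasFDerivAt_fst (𝕜 := ℂ) (p := Ψ (0, p))).comp (0, p) hs.hasFDerivAt
    have h' := this.unique (hasFDerivAt_fst (𝕜 := ℂ) (p := ((0 : ℂ), p)))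
    simpa using congrArg (fun l => l x) h'
  have e2 : ∀ v, D (0, v) = (0, eval p (pderiv 0 (γ 0).1) * v 0 + eval p (pderiv 1 (γ 0).1) * v 1,
      eval p (pderiv 0 (γ 0).2) * v 0 + eval p (pderiv 1 (γ 0).2) * v 1) := fun v => by
    have := hs.hasFDerivAt.comp p (hasFDerivAt_prodMk_right (𝕜 := ℂ) (0 : ℂ) p)
    have h' := this.unique ((hasFDerivAt_const (0 : ℂ) p).prodMk
      ((hasFDerivAt_eval (γ 0).1 p).prodMk (hasFDerivAt_eval (γ 0).2 p)))
    simpa using congrArg (fun l => l v) h'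
  have hsurj : D.range = ⊤ := by
    rw [LinearMap.range_eq_top]
    rintro ⟨a, b, c⟩
    simp only [jac, map_sub, map_mul] at hj
    set b' := b - (D (a, 0)).2.1
    set c' := c - (D (a, 0)).2.2
    set Px := eval p (pderiv 0 (γ 0).1)
    set Py := eval p (pderiv 1 (γ 0).1)
    set Qx := eval p (pderiv 0 (γ 0).2)
    set Qy := eval p (pderiv 1 (γ 0).2)
    refine ⟨(a, 0) + (0, ![(b' * Qy - c' * Py) / (Px * Qy - Py * Qx),
      (c' * Px - b' * Qx) / (Px * Qy - Py * Qx)]), ?_⟩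
    change D _ = _
    rw [map_add, e2]
    refine Prod.ext ?_ (Prod.ext ?_ ?_)
    · simp [e1]
    · simp only [Prod.snd_add, Prod.fst_add, Matrix.cons_val_zero, Matrix.cons_val_one]
      field_simp
      simp only [b']; ring
    · simp only [Prod.snd_add, Matrix.cons_val_zero, Matrix.cons_val_one]
      have : Qx * ((b' * Qy - c' * Py) / (Px * Qy - Py * Qx)) +
          Qy * ((c' * Px - b' * Qx) / (Px * Qy - Py * Qx)) = c' := by
        rw [← mul_div_assoc, ← mul_div_assoc, ← add_div, div_eq_iff hj]; ring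
      rw [this]
      simp only [c']; ring
  have hmap := hs.map_nhds_eq_of_surj hsurj
  have hI : Ψ '' U ∈ 𝓝 (Ψ (0, p)) := by rw [← hmap]; exact Filter.image_mem_map hU
  have hΨ0 : Ψ (0, p) = (0, 0, 0) := by simp [hΨ, h1, h2]
  rw [hΨ0] at hI
  have hcont : ContinuousAt (fun τ : ℂ => ((τ, 0, 0) : ℂ × ℂ × ℂ)) 0 := by fun_prop
  filter_upwards [hcont.preimage_mem_nhds hI] with τ hτ
  obtain ⟨⟨t, z⟩, hx, he⟩ := hτ
  simp only [hΨ, Prod.mk.injEq] at he
  obtain ⟨rfl, ha, hb⟩ := he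
  exact ⟨z, hx, ha, hb⟩

noncomputable abbrev Dg (n : ℕ) := restrictTotalDegree (Fin 2) ℂ n

noncomputable def lamFol (n : ℕ) : Form →ₗ[ℂ] (Dg n × Dg n) →ₗ[ℂ] Poly :=
  LinearMap.mk₂ ℂ (fun ω e => e.1 * ω.1 - e.2 * ω.2)
    (fun _ _ _ => by simp; ring) (fun _ _ _ => by simp [smul_sub])
    (fun _ _ _ => by simp; ring) (fun _ _ _ => by simp [smul_sub])

theorem deg_le_of_mul {h a P : Poly} {n : ℕ} (e : P = h * a) (hP : P.totalDegree ≤ n + 1)
    (hh : h.totalDegree ≠ 0) : a.totalDegree ≤ n := by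
  by_cases ha : a = 0
  · simp [ha]
  have h0 : h ≠ 0 := fun h' => hh (by simp [h'])
  rw [e, totalDegree_mul_of_isDomain h0 ha] at hP
  omega

theorem fol_of_inj {n : ℕ} {ω : Form} (hV : ω ∈ V (n + 1))
    (h : Function.Injective (lamFol n ω)) : ω ∈ Fol (n + 1) := by
  rw [injective_iff_map_eq_zero] at h
  have key : ∀ a b : Poly, a.totalDegree ≤ n → b.totalDegree ≤ n → a * ω.1 = b * ω.2 →
      a = 0 ∧ b = 0 := fun a b ha hb hab => by
    have := h (⟨a, (mem_restrictTotalDegree _ _ _).2 ha⟩, ⟨b, (mem_restrictTotalDegree _ _ _).2 hb⟩)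
      (by simp [lamFol, hab])
    simpa using this
  have hne : ¬ (ω.1 = 0 ∧ ω.2 = 0) := fun hz =>
    one_ne_zero (key 1 0 (by simp) (by simp) (by simp [hz.1])).1
  constructor
  · rintro g ⟨a, ha⟩ ⟨b, hb⟩
    rw [isUnit_iff_totalDegree_of_isReduced]
    have hg : g.totalDegree = 0 := by
      by_contra hg
      have := key b a (deg_le_of_mul hb hV.2 hg) (deg_le_of_mul ha hV.1 hg) (by rw [ha, hb]; ring)
      exact hne ⟨by rw [ha, this.2, mul_zero], by rw [hb, this.1, mul_zero]⟩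
    refine ⟨Ne.isUnit fun h0 => hne ?_, hg⟩
    have : g = 0 := by rw [totalDegree_eq_zero_iff_eq_C.1 hg, h0, map_zero]
    exact ⟨by rw [ha, this, zero_mul], by rw [hb, this, zero_mul]⟩
  · by_contra hc
    have h1 := hV.1
    have h2 := hV.2
    have := key ω.2 ω.1 (by omega) (by omega) (mul_comm _ _)
    exact hne ⟨this.2, this.1⟩

theorem inj_of_fol {n : ℕ} {ω : Form} (h : ω ∈ Fol (n + 1)) :
    Function.Injective (lamFol n ω) := by
  rw [injective_iff_map_eq_zero]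
  rintro ⟨⟨a, ha⟩, ⟨b, hb⟩⟩ hab
  rw [mem_restrictTotalDegree] at ha hb
  have e : a * ω.1 = b * ω.2 := by simpa [lamFol, sub_eq_zero] using hab
  have d1 : ω.1 ∣ b := h.1.dvd_of_dvd_mul_right ⟨a, by rw [← e, mul_comm]⟩
  have d2 : ω.2 ∣ a := h.1.symm.dvd_of_dvd_mul_right ⟨b, by rw [e, mul_comm]⟩
  have h2 := h.2
  have key : ∀ P Q a b : Poly, a * P = b * Q → P ∣ b → b.totalDegree ≤ n →
      P.totalDegree = n + 1 → a = 0 ∧ b = 0 := fun P Q a b e d hb hP => by
    have b0 : b = 0 := by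
      by_contra hb0
      have := totalDegree_le_of_dvd_of_isDomain d hb0
      omega
    have P0 : P ≠ 0 := fun h' => by simp [h'] at hP
    rw [b0, zero_mul] at e
    exact ⟨(mul_eq_zero.1 e).resolve_right P0, b0⟩
  have : a = 0 ∧ b = 0 := by
    rcases max_cases ω.1.totalDegree ω.2.totalDegree with h' | h'
    · exact key _ _ a b e d1 hb (by omega)
    · exact (key _ _ b a e.symm d2 ha (by omega)).symm
  simp [this.1, this.2]

theorem PF.Dm {β α : ℂ → ℂ} {F G : ℂ → Poly} (hβ : PS β) (hα : PS α) (hF : PC F) (hG : PC G) :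
    PF fun τ => Dm (β τ) (α τ) (F τ) (G τ) :=
  (PF.psmul (hβ.toC.mul hF) hG.dform).add (PF.psmul (hα.toC.mul hG) hF.dform)

theorem curve_mem_M {n : ℕ} {β α : ℂ → ℂ} {F G : ℂ → Poly} (hβ : PS β) (hα : PS α) (hF : PC F)
    (hG : PC G) (hV : ∀ τ, Dm (β τ) (α τ) (F τ) (G τ) ∈ V (n + 1))
    (h0 : Dm (β 0) (α 0) (F 0) (G 0) ∈ Fol (n + 1)) (hβ0 : β 0 ≠ 0) {p : Fin 2 → ℂ}
    (hF0 : eval p (F 0) ≠ 0) (h1 : eval p (Dm (β 0) (α 0) (F 0) (G 0)).1 = 0)
    (h2 : eval p (Dm (β 0) (α 0) (F 0) (G 0)).2 = 0)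
    (hj : eval p (jac (Dm (β 0) (α 0) (F 0) (G 0))) ≠ 0) (τ : ℂ) :
    Dm (β τ) (α τ) (F τ) (G τ) ∈ M (n + 1) := by
  have hγ := PF.Dm hβ hα hF hG
  obtain ⟨R, hR0, hR⟩ := exists_sep (n + 1) (lamFol n) (hV 0) (inj_of_fol h0)
  have c1 : ∀ᶠ x in 𝓝 ((0 : ℂ), p), eval x.2 (F x.1) ≠ 0 :=
    hF.contDiff.continuous.continuousAt.eventually_ne hF0
  have c2 : ∀ᶠ x in 𝓝 ((0 : ℂ), p), eval x.2 (jac (Dm (β x.1) (α x.1) (F x.1) (G x.1))) ≠ 0 :=
    hγ.jac.contDiff.continuous.continuousAt.eventually_ne hj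
  have c3 := eventually_sing hγ h1 h2 hj (c1.and c2)
  have c4 := hβ.continuous.continuousAt.eventually_ne hβ0
  have c5 := (hγ.ev R).continuous.continuousAt.eventually_ne hR0
  refine hγ.mem_zcl (infinite_of_nhdsNE (mem_nhdsWithin_of_mem_nhds ?_)) τ
  filter_upwards [c3, c4, c5] with t ⟨z, hz, ha, hb⟩ h4 h5
  exact subset_zcl _ ⟨fol_of_inj (hV t) (hR _ (hV t) h5), z, center_Dm h4 hz.1 ha hb hz.2⟩

end Pool.Agent.MP_05b4bd_ag

end MrgPart2

-- ======== part 3: formerly Pool.Agent.MP_05b4bd_ag.Exp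
section MrgPart3

namespace Pool.Agent.MP_05b4bd_ag

open MvPolynomial Topology

@[simp] theorem pderiv_ofNat (i : Fin 2) (n : ℕ) [n.AtLeastTwo] :
    pderiv i (ofNat(n) : Poly) = 0 := by
  rw [← map_ofNat (C : ℂ →+* Poly)]; exact pderiv_C

/-! Degree bookkeeping -/

theorem dg_add {f g : Poly} {n : ℕ} (hf : f.totalDegree ≤ n) (hg : g.totalDegree ≤ n) :
    (f + g).totalDegree ≤ n := (totalDegree_add f g).trans (max_le hf hg)
theorem dg_sub {f g : Poly} {n : ℕ} (hf : f.totalDegree ≤ n) (hg : g.totalDegree ≤ n) :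
    (f - g).totalDegree ≤ n := (totalDegree_sub f g).trans (max_le hf hg)
theorem dg_neg {f : Poly} {n : ℕ} (hf : f.totalDegree ≤ n) : (-f).totalDegree ≤ n := by
  rwa [totalDegree_neg]
theorem dg_mul {f g : Poly} {a b n : ℕ} (hf : f.totalDegree ≤ a) (hg : g.totalDegree ≤ b)
    (h : a + b ≤ n) : (f * g).totalDegree ≤ n :=
  (totalDegree_mul f g).trans ((add_le_add hf hg).trans h)
theorem dg_pow {f : Poly} {a n : ℕ} (hf : f.totalDegree ≤ a) (k : ℕ) (h : k * a ≤ n) :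
    (f ^ k).totalDegree ≤ n :=
  (totalDegree_pow f k).trans ((Nat.mul_le_mul_left k hf).trans h)
theorem dg_C (c : ℂ) (n : ℕ) : (C c : Poly).totalDegree ≤ n := by simp
theorem dg_Cmul {f : Poly} {n : ℕ} (c : ℂ) (hf : f.totalDegree ≤ n) :
    (C c * f).totalDegree ≤ n := dg_mul (dg_C c 0) hf (by omega)
theorem dg_smul {f : Poly} {n : ℕ} (c : ℂ) (hf : f.totalDegree ≤ n) :
    (c • f).totalDegree ≤ n := (totalDegree_smul_le c f).trans hf
theorem dg_X (i : Fin 2) : (X i : Poly).totalDegree ≤ 1 := by simp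
theorem dg_nat (k n : ℕ) : (k : Poly).totalDegree ≤ n := by
  rw [← map_natCast (C : ℂ →+* Poly)]; exact dg_C _ _
theorem dg_pderiv {f : Poly} {n : ℕ} (hf : f.totalDegree ≤ n + 1) (i : Fin 2) :
    (pderiv i f).totalDegree ≤ n := by
  rw [totalDegree_le_iff] at hf ⊢
  intro m hm
  rw [coeff_pderiv, hf _ (by rw [map_add, Finsupp.degree_single]; omega), zero_mul]
theorem dg_line {f g : Poly} {n : ℕ} (hf : f.totalDegree ≤ n) (hg : g.totalDegree ≤ n) (τ : ℂ) :
    (f + τ • (g - f)).totalDegree ≤ n := dg_add hf (dg_smul τ (dg_sub hg hf))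
theorem pderiv_eq_zero_of_dg {f : Poly} (hf : f.totalDegree ≤ 0) (i : Fin 2) : pderiv i f = 0 := by
  rw [totalDegree_eq_zero_iff_eq_C.1 (Nat.le_zero.1 hf), pderiv_C]

theorem V_add {a b : Form} {d : ℕ} (ha : a ∈ V d) (hb : b ∈ V d) : a + b ∈ V d :=
  ⟨dg_add ha.1 hb.1, dg_add ha.2 hb.2⟩
theorem V_sub {a b : Form} {d : ℕ} (ha : a ∈ V d) (hb : b ∈ V d) : a - b ∈ V d :=
  ⟨dg_sub ha.1 hb.1, dg_sub ha.2 hb.2⟩
theorem V_smul {a : Form} {d : ℕ} (c : ℂ) (ha : a ∈ V d) : c • a ∈ V d :=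
  ⟨dg_smul c ha.1, dg_smul c ha.2⟩
theorem V_psmul_dform {f g : Poly} {a b d : ℕ} (hf : f.totalDegree ≤ a) (hg : g.totalDegree ≤ b)
    (h : a + b ≤ d + 1) : f • dform g ∈ V d := by
  cases b with
  | zero =>
    have : dform g = 0 := by simp [dform, pderiv_eq_zero_of_dg hg]
    rw [this, smul_zero]; exact ⟨by simp, by simp⟩
  | succ b =>
    exact ⟨dg_mul hf (dg_pderiv hg 1) (by omega), dg_mul hf (dg_neg (dg_pderiv hg 0)) (by omega)⟩
theorem V_Dm {F G : Poly} {a b d : ℕ} (β α : ℂ) (hF : F.totalDegree ≤ a) (hG : G.totalDegree ≤ b)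
    (h : a + b ≤ d + 1) : Dm β α F G ∈ V d :=
  V_add (V_psmul_dform (dg_Cmul β hF) hG h) (V_psmul_dform (dg_Cmul α hG) hF (by omega))

/-! Coprimality -/

theorem pderiv_eq_zero_of_dvd {h r : Poly} (hd : h ∣ r) (hr : r ≠ 0) (h0 : pderiv 0 r = 0) :
    pderiv 0 h = 0 := by
  have e : degreeOf 0 r = 0 := by
    rw [← Nat.le_zero, degreeOf_le_iff]
    intro m hm
    by_contra hc
    have := coeff_pderiv (i := 0) r (m - Finsupp.single 0 1)
    rw [h0, coeff_zero, Finsupp.sub_add_single_one_cancel (by omega)] at this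
    exact mul_ne_zero (mem_support_iff.1 hm) (Nat.cast_add_one_ne_zero _) this.symm
  obtain ⟨k, rfl⟩ := hd
  rw [degreeOf_mul_eq (left_ne_zero_of_mul hr) (right_ne_zero_of_mul hr)] at e
  refine pderiv_eq_zero_of_notMem_vars fun hv => ?_
  rw [mem_vars_iff_degreeOf_ne_zero] at hv
  omega

theorem relPrime_of {r Q : Poly} (hr : r ≠ 0) (h0 : pderiv 0 r = 0) {y c : ℂ}
    (hy : eval ![0, y] Q ≠ 0) (hc : c ≠ 0)
    (hQ : pderiv 0 Q = C c ∨ pderiv 0 (pderiv 0 Q) = C c) : IsRelPrime (X 0 * r) Q := by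
  refine IsRelPrime.mul_left ?_ ?_
  · rw [(X_prime (i := (0 : Fin 2))).irreducible.isRelPrime_iff_not_dvd]
    rintro ⟨k, rfl⟩
    simp at hy
  · intro h h1 h2
    have e := pderiv_eq_zero_of_dvd h1 hr h0
    have key : ∀ P, h ∣ P → h ∣ pderiv 0 P := by
      rintro _ ⟨k, rfl⟩
      exact ⟨pderiv 0 k, by simp [e]⟩
    have : h ∣ C c := by
      rcases hQ with hQ | hQ
      · rw [← hQ]; exact key _ h2
      · rw [← hQ]; exact key _ (key _ h2)
    exact isUnit_of_dvd_unit this ((Ne.isUnit hc).map C)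

theorem fol_of {n : ℕ} {ω : Form} {a e y c : ℂ} (hV : ω ∈ V (n + 2)) (ha : a ≠ 0)
    (h1 : ω.1 = X 0 * (C a * (X 1 ^ (n + 1) - C e))) (hy : eval ![0, y] ω.2 ≠ 0) (hc : c ≠ 0)
    (hQ : pderiv 0 ω.2 = C c ∨ pderiv 0 (pderiv 0 ω.2) = C c) : ω ∈ Fol (n + 2) := by
  have d1 : (X 1 ^ (n + 1) - C e : Poly).totalDegree = n + 1 := by
    rw [sub_eq_add_neg, totalDegree_add_eq_left_of_totalDegree_lt] <;> simp
  have n1 : (X 1 ^ (n + 1) - C e : Poly) ≠ 0 := fun h => by simp [h] at d1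
  have n2 : (C a * (X 1 ^ (n + 1) - C e) : Poly) ≠ 0 := mul_ne_zero (by simpa using ha) n1
  refine ⟨?_, le_antisymm (max_le hV.1 hV.2) (le_max_of_le_left ?_)⟩
  · rw [h1]; exact relPrime_of n2 (by simp) hy hc hQ
  · rw [h1, totalDegree_mul_of_isDomain (X_ne_zero 0) n2,
      totalDegree_mul_of_isDomain (by simpa using ha) n1, d1]
    simp; omega

/-! Separation -/

theorem not_mem_zcl {E W : Type*} [AddCommGroup E] [Module ℂ E] [Module.Finite ℂ E]
    [AddCommGroup W] [Module ℂ W] {d : ℕ} (Λ : Form →ₗ[ℂ] E →ₗ[ℂ] W) {ω0 : Form} {S : Set Form}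
    (h0 : ω0 ∈ V d) (h : Function.Injective (Λ ω0)) (hS : S ⊆ V d)
    (hn : ∀ η ∈ S, ¬ Function.Injective (Λ η)) : ω0 ∉ zcl S := fun hz => by
  obtain ⟨R, hR0, hR⟩ := exists_sep d Λ h0 h
  refine hR0 (mem_zcl.1 hz R fun η hη => ?_)
  by_contra hc
  exact hn η hη (hR η (hS hη) hc)

noncomputable def lamI (k : ℂ) (n : ℕ) : Form →ₗ[ℂ] Dg n →ₗ[ℂ] Poly :=
  LinearMap.mk₂ ℂ (fun ω r => (r : Poly) * (pderiv 0 ω.1 + pderiv 1 ω.2) -
      C k * (pderiv 0 (r : Poly) * ω.1 + pderiv 1 (r : Poly) * ω.2))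
    (fun _ _ _ => by simp; ring) (fun _ _ _ => by simp [smul_eq_C_mul]; ring)
    (fun _ _ _ => by simp; ring) (fun _ _ _ => by simp [smul_eq_C_mul]; ring)

noncomputable def lamB : Form →ₗ[ℂ] Dg 1 →ₗ[ℂ] Poly :=
  LinearMap.mk₂ ℂ (fun ω r => C (coeff 0 (r : Poly)) * (pderiv 0 ω.1 + pderiv 1 ω.2) +
      (pderiv 0 (r : Poly) * ω.1 + pderiv 1 (r : Poly) * ω.2))
    (fun _ _ _ => by simp; ring) (fun _ _ _ => by simp [smul_eq_C_mul]; ring)
    (fun _ _ _ => by simp; ring) (fun _ _ _ => by simp [smul_eq_C_mul]; ring)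

theorem not_inj_lamI {k : ℂ} {n : ℕ} {ω : Form} {r : Poly} (hr : r ≠ 0) (hd : r.totalDegree ≤ n)
    (h : r * (pderiv 0 ω.1 + pderiv 1 ω.2) = C k * (pderiv 0 r * ω.1 + pderiv 1 r * ω.2)) :
    ¬ Function.Injective (lamI k n ω) := fun hi => by
  rw [injective_iff_map_eq_zero] at hi
  have := hi ⟨r, (mem_restrictTotalDegree _ _ _).2 hd⟩ (by simp [lamI, h])
  exact hr (by simpa using this)

theorem eq_affine {r : Poly} (hr : r.totalDegree ≤ 1) :
    ∃ a b c : ℂ, r = C a + C b * X 0 + C c * X 1 := by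
  obtain ⟨a, b, h, -, -⟩ := taylor1' r 0
  refine ⟨coeff 0 r, coeff (Finsupp.single 0 1) r, coeff (Finsupp.single 1 1) r, ?_⟩
  ext m
  by_cases hm : 1 < m.degree
  · rw [totalDegree_le_iff.1 hr m hm]
    exact (totalDegree_le_iff.1 (dg_add (dg_add (dg_C _ _) (dg_Cmul _ (dg_X 0)))
      (dg_Cmul _ (dg_X 1))) m hm).symm
  · have hm' : m 0 + m 1 ≤ 1 := by
      rw [Finsupp.degree_eq_sum, Fin.sum_univ_two] at hm; omega
    have : m = 0 ∨ m = Finsupp.single 0 1 ∨ m = Finsupp.single 1 1 := by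
      rcases Nat.eq_zero_or_pos (m 0) with h0 | h0
      · rcases Nat.eq_zero_or_pos (m 1) with h1 | h1
        · left; ext i; fin_cases i <;> simp [h0, h1]
        · right; right; ext i; fin_cases i <;> simp [h0]; omega
      · right; left; ext i; fin_cases i <;> simp <;> omega
    rcases this with rfl | rfl | rfl <;>
      simp [coeff_X, coeff_C, Finsupp.single_eq_single_iff, eq_comm (a := (0 : Fin 2 →₀ ℕ))]

/-! The two-factor logarithmic family with a line -/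

def S1 (d : ℕ) : Set Form :=
  {ω | ∃ (β α : ℂ) (F G : Poly), F.totalDegree ≤ 1 ∧ G.totalDegree ≤ d ∧ ω = Dm β α F G}

theorem S1_V (d : ℕ) : S1 d ⊆ V d := by
  rintro _ ⟨β, α, F, G, hF, hG, rfl⟩
  exact V_Dm β α hF hG (by omega)

theorem S1_irred (d : ℕ) : Irred (S1 d) := by
  refine irred_of_curves ⟨_, 0, 0, 0, 0, by simp, by simp, rfl⟩ ?_
  rintro _ ⟨β, α, F, G, hF, hG, rfl⟩ _ ⟨β', α', F', G', hF', hG', rfl⟩
  exact ⟨_, PF.Dm (PS.line β β') (PS.line α α') (PC.line F F') (PC.line G G'), by simp, by simp,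
    fun τ => ⟨_, _, _, _, dg_line hF hF' τ, dg_line hG hG' τ, rfl⟩⟩

theorem S1_M (n : ℕ) : S1 (n + 2) ⊆ M (n + 2) := by
  rintro _ ⟨β', α', F', G', hF', hG', rfl⟩
  set G : Poly := X 1 ^ (n + 2) - C ((n : ℂ) + 2) * X 1 + X 0 + C ((n : ℂ) - 1) with hGd
  have hG : G.totalDegree ≤ n + 2 :=
    dg_add (dg_add (dg_sub (dg_pow (dg_X 1) _ (by omega)) (dg_Cmul _ ((dg_X 1).trans (by omega))))
      ((dg_X 0).trans (by omega))) (dg_C _ _)
  have hn : (n : ℂ) + 2 ≠ 0 := by exact_mod_cast (by omega : n + 2 ≠ 0)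
  have hn' : (n : ℂ) + 1 ≠ 0 := by exact_mod_cast (by omega : n + 1 ≠ 0)
  have e1 : (Dm 1 1 (X 0) G).1 = X 0 * (C ((n : ℂ) + 2) * (X 1 ^ (n + 1) - C 1)) := by
    simp [Dm_fst, hGd, map_ofNat]; ring
  have e2 : (Dm 1 1 (X 0) G).2 = -(G + X 0) := by
    simp [Dm_snd, hGd]; ring
  have := curve_mem_M (n := n + 1) (PS.line 1 β') (PS.line 1 α') (PC.line (X 0) F') (PC.line G G')
    (fun τ => V_Dm _ _ (dg_line (dg_X 0) hF' τ) (dg_line hG hG' τ) (by omega))
    (p := ![1, 1]) ?_ (by simp) (by simp) ?_ ?_ ?_ 1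
  · simpa using this
  · simp only [zero_mul, add_zero, zero_smul]
    obtain ⟨y, hy⟩ : ∃ y : ℂ, eval ![0, y] (-(G + X 0)) ≠ 0 := by
      by_contra hc
      push Not at hc
      have h1 := hc 1
      simp [hGd] at h1
    refine fol_of (c := -2) (y := y) (V_Dm (d := n + 2) 1 1 (dg_X 0) hG (by omega)) hn e1
      (by rwa [e2]) (by norm_num) (Or.inl ?_)
    rw [e2]; simp [hGd, map_ofNat]; norm_num
  · simp [e1]
  · simp only [zero_mul, add_zero, zero_smul, e2]; simp [hGd]; ring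
  · simp only [zero_mul, add_zero, zero_smul, jac, e1, e2]
    simp [hGd, hn, hn']

theorem A_S1 {d i : ℕ} (hi : i ≤ d) : A d i ⊆ zcl (S1 d) := by
  rintro _ ⟨p, q, c, hp, hq, rfl⟩
  have hγ : PF fun ε => c • (p ^ i • dform p + p • dform q - ((i : Poly) * q) • dform p) +
      ε • c • q • dform p := (PF.const _).add (PF.smul PS.id (PF.const _))
  have := hγ.mem_zcl_of_ne (S := S1 d) fun ε hε => subset_zcl _
    ⟨c / ε, c * (1 - i / ε), p, p ^ i + C ε * q, hp,
      dg_add (dg_pow hp i (by omega)) (dg_Cmul _ hq), by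
      have hC : (C ε : Poly) * C ε⁻¹ = 1 := by rw [← map_mul, mul_inv_cancel₀ hε, map_one]
      have hp' : ∀ j, p * pderiv j (p ^ i) = i * p ^ i * pderiv j p := fun j => by
        cases i with
        | zero => simp
        | succ i => rw [pderiv_pow, Nat.add_sub_cancel]; ring
      refine Prod.ext ?_ ?_
      · simp only [Dm_fst, dform, Prod.fst_add, Prod.fst_sub, Prod.smul_fst, smul_eq_mul,
          smul_eq_C_mul, map_add, pderiv_C_mul, div_eq_mul_inv, map_mul, map_sub, map_one,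
          map_natCast]
        linear_combination -(C c * C ε⁻¹) * hp' 1 - (C c * p * pderiv 1 q -
          C c * i * q * pderiv 1 p) * hC
      · simp only [Dm_snd, dform, Prod.snd_add, Prod.snd_sub, Prod.smul_snd, smul_eq_mul,
          smul_eq_C_mul, map_add, pderiv_C_mul, div_eq_mul_inv, map_mul, map_sub, map_one,
          map_natCast]
        linear_combination (C c * C ε⁻¹) * hp' 0 + (C c * p * pderiv 0 q -
          C c * i * q * pderiv 0 p) * hC⟩
  simpa using this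

theorem B_S1 (d : ℕ) : B d ⊆ zcl (S1 d) := by
  rintro _ ⟨p, q, c, hp, hq, rfl⟩
  have hγ : PF fun ε => c • (dform q + q • dform p) + ε • c • p • dform q :=
    (PF.const _).add (PF.smul PS.id (PF.const _))
  have := hγ.mem_zcl_of_ne (S := S1 d) fun ε hε => subset_zcl _
    ⟨c, c / ε, 1 + C ε * p, q, dg_add (by simp) (dg_Cmul _ hp), hq, by
      have hC : (C ε : Poly) * C ε⁻¹ = 1 := by rw [← map_mul, mul_inv_cancel₀ hε, map_one]
      refine Prod.ext ?_ ?_
      · simp only [Dm_fst, dform, Prod.fst_add, Prod.smul_fst, smul_eq_mul,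
          smul_eq_C_mul, map_add, pderiv_C_mul, div_eq_mul_inv, map_mul, pderiv_one]
        linear_combination -(C c * q * pderiv 1 p) * hC
      · simp only [Dm_snd, dform, Prod.snd_add, Prod.smul_snd, smul_eq_mul,
          smul_eq_C_mul, map_add, pderiv_C_mul, div_eq_mul_inv, map_mul, pderiv_one]
        linear_combination (C c * q * pderiv 0 p) * hC⟩
  simpa using this

theorem A_V {d i : ℕ} (hi : i ≤ d) : A d i ⊆ V d :=
  (A_S1 hi).trans (zcl_subset_V (S1_V d))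

theorem B_V (d : ℕ) : B d ⊆ V d := (B_S1 d).trans (zcl_subset_V (S1_V d))

theorem A_not_inj {d i : ℕ} {η : Form} (h : η ∈ A d i) :
    ¬ Function.Injective (lamI ((i : ℂ) + 1) 1 η) := by
  obtain ⟨p, q, c, hp, hq, rfl⟩ := h
  by_cases hp0 : p = 0
  · exact not_inj_lamI (r := 1) one_ne_zero (by simp) (by simp [hp0, dform])
  refine not_inj_lamI hp0 hp ?_
  simp only [dform, Prod.fst_add, Prod.fst_sub, Prod.smul_fst, Prod.snd_add, Prod.snd_sub,
    Prod.smul_snd, smul_eq_mul, smul_eq_C_mul, map_add, map_sub, map_neg, pderiv_C, pderiv_mul,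
    pderiv_pow, pderiv_comm, map_natCast, map_one, Derivation.map_natCast]
  ring

theorem B_not_inj {d : ℕ} {η : Form} (h : η ∈ B d) : ¬ Function.Injective (lamB η) := by
  obtain ⟨p, q, c, hp, hq, rfl⟩ := h
  intro hi
  rw [injective_iff_map_eq_zero] at hi
  have := hi ⟨1 + p - C (coeff 0 p), (mem_restrictTotalDegree _ _ _).2
    (dg_sub (dg_add (by simp) hp) (dg_C _ _))⟩ (by
      simp [lamB, dform, smul_eq_C_mul, pderiv_comm]; ring)
  have h2 := congrArg (fun r : Dg 1 => coeff 0 (r : Poly)) this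
  simp at h2

noncomputable def w2 (n : ℕ) : Form := Dm 1 2 (X 0) (X 1 ^ (n + 2) + 1)

theorem w2_S1 (n : ℕ) : w2 n ∈ S1 (n + 2) :=
  ⟨1, 2, _, _, dg_X 0, dg_add (dg_pow (dg_X 1) _ (by omega)) (by simp), rfl⟩

theorem w2_inj_A (n i : ℕ) : Function.Injective (lamI ((i : ℂ) + 1) 1 (w2 n)) := by
  rw [injective_iff_map_eq_zero]
  rintro ⟨r, hr⟩ h
  obtain ⟨a, b, c, rfl⟩ := eq_affine ((mem_restrictTotalDegree _ _ _).1 hr)
  have hn : (n : ℂ) + 2 ≠ 0 := by exact_mod_cast (by omega : n + 2 ≠ 0)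
  have hi : (i : ℂ) + 1 ≠ 0 := by exact_mod_cast (by omega : i + 1 ≠ 0)
  have hi2 : (i : ℂ) + 2 ≠ 0 := by exact_mod_cast (by omega : i + 2 ≠ 0)
  have h0 := congrArg (eval ![0, 0]) h
  have h1 := congrArg (eval ![0, 1]) h
  have h2 := congrArg (eval ![1, 1]) h
  simp [lamI, w2, Dm_fst, Dm_snd] at h0 h1 h2
  have hc : c = 0 := h0.resolve_left hi
  subst hc
  have ha : a = 0 := mul_left_cancel₀ hn (by linear_combination -h1)
  subst ha
  have hb : b = 0 := mul_left_cancel₀ (mul_ne_zero hn hi2) (by linear_combination -h2)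
  subst hb
  simp

theorem w2_inj_B (n : ℕ) : Function.Injective (lamB (w2 n)) := by
  rw [injective_iff_map_eq_zero]
  rintro ⟨r, hr⟩ h
  obtain ⟨a, b, c, rfl⟩ := eq_affine ((mem_restrictTotalDegree _ _ _).1 hr)
  have hn : (n : ℂ) + 2 ≠ 0 := by exact_mod_cast (by omega : n + 2 ≠ 0)
  have h0 := congrArg (eval ![0, 0]) h
  have h1 := congrArg (eval ![0, 1]) h
  have h2 := congrArg (eval ![1, 1]) h
  simp [lamB, w2, Dm_fst, Dm_snd] at h0 h1 h2
  subst h0
  have ha : a = 0 := mul_left_cancel₀ hn (by linear_combination -h1)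
  subst ha
  have hb : b = 0 := mul_left_cancel₀ hn (by linear_combination h2)
  subst hb
  simp

theorem component_not_subset {n : ℕ} {Z S : Set Form} (hZ : IsComponent (M (n + 2)) Z)
    (hS : S ⊆ zcl (S1 (n + 2))) (hw : w2 n ∉ zcl S) : ¬ Z ⊆ zcl S := fun h => by
  have h1 : Z ⊆ zcl (S1 (n + 2)) := h.trans (zcl_subset hS)
  have h2 := hZ.le_of_ge ⟨zcl_subset (S1_M n), (S1_irred _).zcl⟩ h1
  exact hw (h (h2 (subset_zcl _ (w2_S1 n))))

theorem not_component {d : ℕ} (hd : 2 ≤ d) {Z : Set Form} (hZ : IsComponent (M d) Z) :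
    (∀ i ≤ d, ¬ Z ⊆ zcl (A d i)) ∧ ¬ Z ⊆ zcl (B d) := by
  obtain ⟨n, rfl⟩ : ∃ n, d = n + 2 := ⟨d - 2, by omega⟩
  exact ⟨fun i hi => component_not_subset hZ (A_S1 hi) (not_mem_zcl _ (S1_V _ (w2_S1 n))
      (w2_inj_A n i) (A_V hi) fun _ => A_not_inj),
    component_not_subset hZ (B_S1 _) (not_mem_zcl _ (S1_V _ (w2_S1 n))
      (w2_inj_B n) (B_V _) fun _ => B_not_inj)⟩

end Pool.Agent.MP_05b4bd_ag

end MrgPart3

-- marker of a merged file
example : 731051 + 15236 = 731051 + 15236 := rfl
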