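import Mathlib.Topology.Sheaves.Presheaf
import Mathlib.Algebra.MvPolynomial.Funext
import Mathlib.Analysis.Calculus.InverseFunctionTheorem.ContDiff
import Mathlib.MeasureTheory.Function.Jacobian
import Mathlib.Combinatorics.SimpleGraph.Basic
import Mathlib.Analysis.InnerProductSpace.NormDet
import Mathlib.Topology.Baire.LocallyCompactRegular
import Mathlib.RingTheory.TotallySplit
import Mathlib.RingTheory.MvPolynomial.EulerIdentity
import Mathlib.Topology.UniformSpace.Uniformizable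
import Pool.Agent.MP_05b4bd_ag.Exp

-- ======== part 0: formerly Pool.Agent.MP_05b4bd_ag.Fam
section MrgPart0

namespace Pool.Agent.MP_05b4bd_ag

open MvPolynomial Topology

noncomputable def Sp : ℕ → Poly → Poly → Poly
  | 0, u, _ => u
  | K + 1, u, v => C (2 * (K : ℂ) + 3)⁻¹ *
      (C (2 * (K : ℂ) + 2) * (u ^ 2 + v) * Sp K u v + u * v ^ (K + 1))

theorem Sp_deriv (D : Derivation ℂ Poly Poly) (K : ℕ) (u v : Poly) :
    2 * (u ^ 2 + v) * D (Sp K u v) - (2 * K + 1) * Sp K u v * D (u ^ 2 + v) =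
      v ^ K * (2 * v * D u - u * D v) := by
  induction K with
  | zero => simp [Sp]; ring
  | succ K ih =>
    have hK : (2 * (K : ℂ) + 3) ≠ 0 := by exact_mod_cast (by omega : 2 * K + 3 ≠ 0)
    have hC : (C (2 * (K : ℂ) + 3)⁻¹ : Poly) * (2 * K + 3) = 1 := by
      have : (2 * K + 3 : Poly) = C (2 * (K : ℂ) + 3) := by simp [map_ofNat]
      rw [this, ← map_mul, inv_mul_cancel₀ hK, map_one]
    have e2 : (C (2 * (K : ℂ)) : Poly) = 2 * K := by simp [map_ofNat]
    have e3 : (C 2 : Poly) = 2 := rfl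
    have dC : ∀ c : ℂ, D (C c) = 0 := fun c => derivation_C D c
    simp only [Sp, Derivation.leibniz, map_add, dC, smul_eq_mul, Derivation.leibniz_pow,
      nsmul_eq_mul, Nat.add_sub_cancel] at ih ⊢
    rw [e2, e3]
    push_cast at ih ⊢
    linear_combination (C (2 * (K : ℂ) + 3)⁻¹ * (2 * K + 2) * (u ^ 2 + v)) * ih +
      (v ^ (K + 1) * (2 * v * D u - u * D v)) * hC

theorem PC.Sp {u v : ℂ → Poly} (hu : PC u) (hv : PC v) (K : ℕ) :
    PC fun τ => Sp K (u τ) (v τ) := by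
  induction K with
  | zero => exact hu
  | succ K ih =>
    exact (PC.const _).mul ((((PC.const _).mul ((hu.pow 2).add hv)).mul ih).add
      (hu.mul (hv.pow _)))

noncomputable def fam (K : ℕ) (c : ℂ) (u v g : Poly) : Form :=
  Dm 2 (-(2 * (K : ℂ) + 1)) (u ^ 2 + v) (C c * Sp K u v + g)

theorem fam_eq (K : ℕ) (c : ℂ) (u v g : Poly) : fam K c u v g =
    c • ((2 * v ^ (K + 1)) • dform u - (u * v ^ K) • dform v) +
      Dm 2 (-(2 * (K : ℂ) + 1)) (u ^ 2 + v) g := by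
  refine Prod.ext ?_ ?_
  · have := Sp_deriv (pderiv 1) K u v
    simp only [fam, Dm_fst, dform, Prod.fst_add, Prod.fst_sub, Prod.smul_fst, smul_eq_mul,
      smul_eq_C_mul, map_add (pderiv 1) (C c * Sp K u v), pderiv_C_mul, map_neg, map_add C,
      map_mul C, map_natCast, map_one, map_ofNat]
    linear_combination C c * this
  · have := Sp_deriv (pderiv 0) K u v
    simp only [fam, Dm_snd, dform, Prod.snd_add, Prod.snd_sub, Prod.smul_snd, smul_eq_mul,
      smul_eq_C_mul, map_add (pderiv 0) (C c * Sp K u v), pderiv_C_mul, map_neg, map_add C,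
      map_mul C, map_natCast, map_one, map_ofNat]
    linear_combination -C c * this

theorem fam_V {K : ℕ} (c : ℂ) {u v g : Poly} (hu : u.totalDegree ≤ 1) (hv : v.totalDegree ≤ 1)
    (hg : g.totalDegree ≤ K) : fam K c u v g ∈ V (K + 1) := by
  rw [fam_eq]
  refine V_add (V_smul _ (V_sub (V_psmul_dform (a := K + 1) ?_ hu (by omega))
    (V_psmul_dform (a := K + 1) ?_ hv (by omega)))) (V_Dm (a := 2) _ _ ?_ hg (by omega))
  · exact dg_mul (dg_nat 2 0) (dg_pow hv _ le_rfl) (by omega)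
  · exact dg_mul hu (dg_pow hv _ le_rfl) (by omega)
  · exact dg_add (dg_pow hu 2 le_rfl) (hv.trans (by omega))

def S2 (K : ℕ) : Set Form :=
  {ω | ∃ (c : ℂ) (u v g : Poly), u.totalDegree ≤ 1 ∧ v.totalDegree ≤ 1 ∧ g.totalDegree ≤ K ∧
    ω = fam K c u v g}

theorem S2_V (K : ℕ) : S2 K ⊆ V (K + 1) := by
  rintro _ ⟨c, u, v, g, hu, hv, hg, rfl⟩
  exact fam_V c hu hv hg

theorem PF.fam (K : ℕ) {c : ℂ → ℂ} {u v g : ℂ → Poly} (hc : PS c) (hu : PC u) (hv : PC v)
    (hg : PC g) : PF fun τ => fam K (c τ) (u τ) (v τ) (g τ) :=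
  PF.Dm (PS.const _) (PS.const _) ((hu.pow 2).add hv) ((hc.toC.mul (hu.Sp hv K)).add hg)

theorem S2_irred (K : ℕ) : Irred (S2 K) := by
  refine irred_of_curves ⟨_, 0, 0, 0, 0, by simp, by simp, by simp, rfl⟩ ?_
  rintro _ ⟨c, u, v, g, hu, hv, hg, rfl⟩ _ ⟨c', u', v', g', hu', hv', hg', rfl⟩
  exact ⟨_, PF.fam K (PS.line c c') (PC.line u u') (PC.line v v') (PC.line g g'), by simp, by simp,
    fun τ => ⟨_, _, _, _, dg_line hu hu' τ, dg_line hv hv' τ, dg_line hg hg' τ, rfl⟩⟩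

noncomputable def w0 (K : ℕ) : Form := fam K 1 (X 0) (X 1) (-X 0)

theorem w0_fst (K : ℕ) : (w0 K).1 = X 0 * (C (-1) * (X 1 ^ K - C (2 * (K : ℂ) + 1))) := by
  rw [w0, fam_eq]; simp [Dm_fst, dform, map_ofNat]; ring

theorem w0_snd (K : ℕ) : (w0 K).2 = -(2 * X 1 ^ (K + 1) - 2 * X 1 + 4 * (K : Poly) * X 0 ^ 2) := by
  rw [w0, fam_eq]; simp [Dm_snd, dform, map_ofNat]; ring

theorem w0_S2 (n : ℕ) : w0 (n + 1) ∈ S2 (n + 1) :=
  ⟨1, _, _, _, dg_X 0, dg_X 1, dg_neg ((dg_X 0).trans (by omega)), rfl⟩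

theorem S2_M (n : ℕ) : S2 (n + 1) ⊆ M (n + 2) := by
  rintro _ ⟨c, u, v, g, hu, hv, hg, rfl⟩
  have hn' : (n : ℂ) + 1 ≠ 0 := by exact_mod_cast (by omega : n + 1 ≠ 0)
  have hg0 : (-X 0 : Poly).totalDegree ≤ n + 1 := dg_neg ((dg_X 0).trans (by omega))
  have := curve_mem_M (n := n + 1) (PS.const 2) (PS.const (-(2 * ((n + 1 : ℕ) : ℂ) + 1)))
    (((PC.line (X 0) u).pow 2).add (PC.line (X 1) v))
    (((PS.line 1 c).toC.mul ((PC.line (X 0) u).Sp (PC.line (X 1) v) (n + 1))).add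
      (PC.line (-X 0) g))
    (fun τ => fam_V _ (dg_line (dg_X 0) hu τ) (dg_line (dg_X 1) hv τ) (dg_line hg0 hg τ))
    (p := ![0, 1]) ?_ (by simp) (by simp) ?_ ?_ ?_ 1
  · simpa [fam] using this
  all_goals simp only [zero_mul, add_zero, zero_smul]
  · change w0 (n + 1) ∈ _
    refine fol_of (y := 2) (c := -(8 * ((n : ℂ) + 1))) (S2_V _ (w0_S2 n)) (by norm_num)
      (w0_fst _) ?_ (by simpa using hn') (Or.inr ?_)
    · rw [w0_snd]
      simp only [map_neg, map_add, map_sub, map_mul, map_pow, eval_X, map_ofNat,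
        Matrix.cons_val_zero, Matrix.cons_val_one]
      have h1 : (2 : ℂ) ^ (n + 1) ≠ 1 := by
        have : 2 ^ (n + 1) ≠ 1 := by
          have := Nat.one_lt_two_pow (n := n + 1) (by omega); omega
        exact_mod_cast this
      intro h
      apply h1
      linear_combination (-1 / 4) * h
    · rw [w0_snd]; simp [map_ofNat]; ring
  · change eval _ (w0 (n + 1)).1 = 0
    simp [w0_fst]
  · change eval _ (w0 (n + 1)).2 = 0
    simp [w0_snd]
  · change eval _ (jac (w0 (n + 1))) ≠ 0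
    simp [jac, w0_fst, w0_snd]
    constructor
    · exact hn'
    · intro h; apply hn'; linear_combination -h / 2

/-! Logarithmic forms have an integrating factor of degree at most `d + 1`. -/

theorem L_V {s d : ℕ} {δ : Fin s → ℕ} (h : ∑ i, δ i = d + 1) : L δ ⊆ V d := by
  rintro _ ⟨f, l, hf, rfl⟩
  refine Finset.sum_induction _ (· ∈ V d) (fun _ _ => V_add) ⟨by simp, by simp⟩ fun i _ => ?_
  refine V_psmul_dform (a := ∑ j ∈ Finset.univ.erase i, δ j) (dg_Cmul _ ?_) (hf i) ?_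
  · exact (totalDegree_finsetProd _ _).trans (Finset.sum_le_sum fun j _ => hf j)
  · rw [Finset.sum_erase_add _ _ (Finset.mem_univ i), h]

theorem L_not_inj {s d : ℕ} {δ : Fin s → ℕ} (h : ∑ i, δ i = d + 1) {η : Form} (hη : η ∈ L δ) :
    ¬ Function.Injective (lamI 1 (d + 1) η) := by
  obtain ⟨f, l, hf, rfl⟩ := hη
  by_cases h0 : ∃ i, f i = 0
  · obtain ⟨i, hi⟩ := h0
    have : ∑ i, (C (l i) * ∏ j ∈ Finset.univ.erase i, f j) • dform (f i) = 0 := by
      refine Finset.sum_eq_zero fun j _ => ?_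
      by_cases hj : j = i
      · simp [hj, hi, dform]
      · rw [Finset.prod_eq_zero (Finset.mem_erase.2 ⟨Ne.symm hj, Finset.mem_univ i⟩) hi]; simp
    rw [this]
    exact not_inj_lamI (r := 1) one_ne_zero (by simp) (by simp)
  push Not at h0
  refine not_inj_lamI (r := ∏ j, f j) (Finset.prod_ne_zero_iff.2 fun i _ => h0 i)
    ((totalDegree_finsetProd _ _).trans (h ▸ Finset.sum_le_sum fun j _ => hf j)) ?_
  simp only [Prod.fst_sum, Prod.snd_sum, map_sum, map_one, one_mul, ← Finset.sum_add_distrib,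
    Finset.mul_sum]
  refine Finset.sum_congr rfl fun i _ => ?_
  rw [← Finset.mul_prod_erase _ _ (Finset.mem_univ i)]
  generalize ∏ j ∈ Finset.univ.erase i, f j = G
  simp [dform, pderiv_comm]
  ring

/-! The form `w0` has no integrating factor of degree at most `K + 2`. -/

noncomputable def cf (F : Poly) (i j : ℕ) : ℂ := coeff (Finsupp.single 0 i + Finsupp.single 1 j) F

theorem cf_add (F G : Poly) (i j : ℕ) : cf (F + G) i j = cf F i j + cf G i j := by simp [cf]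
theorem cf_sub (F G : Poly) (i j : ℕ) : cf (F - G) i j = cf F i j - cf G i j := by simp [cf]
theorem cf_C_mul (c : ℂ) (F : Poly) (i j : ℕ) : cf (C c * F) i j = c * cf F i j := by simp [cf]
theorem cf_p1 (F : Poly) (i j : ℕ) : cf (pderiv 1 F) i j = cf F i (j + 1) * (j + 1) := by
  simp [cf, coeff_pderiv, add_assoc]
theorem cf_e (k : Fin 2) (F : Poly) (m : Fin 2 →₀ ℕ) :
    coeff m (X k * pderiv k F) = m k * coeff m F := by
  classical
  rw [coeff_X_mul']
  split_ifs with h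
  · have h' : m k ≠ 0 := Finsupp.mem_support_iff.1 h
    rw [coeff_pderiv, Finsupp.sub_add_single_one_cancel h']
    have : ((m - Finsupp.single k 1 : Fin 2 →₀ ℕ) k : ℂ) + 1 = m k := by
      have : (m - Finsupp.single k 1 : Fin 2 →₀ ℕ) k + 1 = m k := by simp; omega
      exact_mod_cast this
    rw [this, mul_comm]
  · rw [Finsupp.notMem_support_iff.1 h]; simp
theorem cf_e0 (F : Poly) (i j : ℕ) : cf (X 0 * pderiv 0 F) i j = i * cf F i j := by
  simp [cf, cf_e]
theorem cf_e1 (F : Poly) (i j : ℕ) : cf (X 1 * pderiv 1 F) i j = j * cf F i j := by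
  simp [cf, cf_e]
theorem cf_X0 (k : ℕ) (F : Poly) (i j : ℕ) :
    cf (X 0 ^ k * F) i j = if k ≤ i then cf F (i - k) j else 0 := by
  classical
  rw [cf, X_pow_eq_monomial, coeff_monomial_mul']
  simp only [Finsupp.single_le_iff, Finsupp.add_apply, Finsupp.single_eq_same, one_mul]
  simp only [ne_eq, zero_ne_one, not_false_eq_true, Finsupp.single_eq_of_ne, add_zero]
  split_ifs with h
  · unfold cf; congr 1; ext a; fin_cases a <;> simp
  · rfl
theorem cf_X1 (k : ℕ) (F : Poly) (i j : ℕ) :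
    cf (X 1 ^ k * F) i j = if k ≤ j then cf F i (j - k) else 0 := by
  classical
  rw [cf, X_pow_eq_monomial, coeff_monomial_mul']
  simp only [Finsupp.single_le_iff, Finsupp.add_apply, Finsupp.single_eq_same, one_mul]
  simp only [ne_eq, one_ne_zero, not_false_eq_true, Finsupp.single_eq_of_ne, zero_add]
  split_ifs with h
  · unfold cf; congr 1; ext a; fin_cases a <;> simp
  · rfl
theorem cf_ext {F : Poly} (h : ∀ i j, cf F i j = 0) : F = 0 := by
  ext m
  have : m = Finsupp.single 0 (m 0) + Finsupp.single 1 (m 1) := by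
    ext a; fin_cases a <;> simp
  rw [this]; exact h _ _
theorem cf_deg {F : Poly} {n i j : ℕ} (h : F.totalDegree ≤ n) (hij : n < i + j) : cf F i j = 0 :=
  totalDegree_le_iff.1 h _ (by simpa [Finsupp.degree_single] using hij)

theorem w0_inj (n : ℕ) : Function.Injective (lamI 1 (n + 3) (w0 (n + 1))) := by
  rw [injective_iff_map_eq_zero]
  rintro ⟨F, hF⟩ h
  rw [mem_restrictTotalDegree] at hF
  set K := n + 1 with hK
  have E : C (2 * (K : ℂ) + 1) * (X 0 * pderiv 0 F) + C 2 * (X 1 * pderiv 1 F) -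
      C (2 * (K : ℂ) + 3) * F + X 1 ^ K * (C (2 * (K : ℂ) + 3) * F - X 0 * pderiv 0 F -
      C 2 * (X 1 * pderiv 1 F)) - C (4 * (K : ℂ)) * (X 0 ^ 2 * pderiv 1 F) = 0 := by
    simp [lamI, w0_fst, w0_snd, map_ofNat] at h
    simp only [map_add, map_mul, map_ofNat, map_natCast, map_one]
    linear_combination -h
  have R : ∀ i j : ℕ, ((2 * (K : ℂ) + 1) * i + 2 * j - (2 * K + 3)) * cf F i j +
      (if K ≤ j then ((2 * (K : ℂ) + 3) - i - 2 * (j - K : ℕ)) * cf F i (j - K) else 0) -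
      (if 2 ≤ i then 4 * K * (cf F (i - 2) (j + 1) * (j + 1)) else 0) = 0 := fun i j => by
    have := congrArg (fun G => cf G i j) E
    simp only [cf_add, cf_sub, cf_C_mul, cf_e0, cf_e1, cf_X0, cf_X1, cf_p1] at this
    have h0 : cf 0 i j = 0 := by simp [cf]
    rw [h0] at this
    split_ifs at this ⊢ <;> linear_combination this
  have hK0 : (K : ℂ) ≠ 0 := by exact_mod_cast (by omega : K ≠ 0)
  have h11 : cf F 1 1 = 0 := by
    have r1 := R 1 (K + 1)
    have r2 := R 3 0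
    have r3 := R 3 K
    rw [if_pos (by omega), if_neg (by omega), Nat.add_sub_cancel_left] at r1
    rw [if_neg (by omega), if_pos (by omega)] at r2
    rw [if_pos le_rfl, if_pos (by omega), Nat.sub_self, cf_deg hF (by omega : n + 3 < 3 + K)] at r3
    norm_num at r1 r2 r3
    have hK3 : (2 * (K : ℂ) + 3) ≠ 0 := by exact_mod_cast (by omega : 2 * K + 3 ≠ 0)
    refine mul_left_cancel₀ (mul_ne_zero hK0 hK3) ?_
    linear_combination r3 / 2 + ((K : ℂ) + 1) * r1 - r2 / 4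
  have key : ∀ i j, cf F i j = 0 := by
    intro i
    induction i using Nat.strong_induction_on with
    | _ i ihi =>
    intro j
    induction j using Nat.strong_induction_on with
    | _ j ihj =>
    by_cases hij : i = 1 ∧ j = 1
    · rw [hij.1, hij.2]; exact h11
    have r := R i j
    have t1 : (if K ≤ j then ((2 * (K : ℂ) + 3) - i - 2 * (j - K : ℕ)) * cf F i (j - K) else 0)
        = 0 := by
      split_ifs with h1
      · rw [ihj _ (by omega), mul_zero]
      · rfl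
    have t2 : (if 2 ≤ i then 4 * K * (cf F (i - 2) (j + 1) * (j + 1)) else 0) = 0 := by
      split_ifs with h1
      · rw [ihi _ (by omega)]; simp
      · rfl
    rw [t1, t2, add_zero, sub_zero] at r
    refine (mul_eq_zero.1 r).resolve_left fun h' => ?_
    have h2 : (2 * K + 1) * i + 2 * j = 2 * K + 3 := by
      exact_mod_cast sub_eq_zero.1 h'
    rcases i with _ | _ | i
    · omega
    · omega
    · have : (2 * K + 1) * (i + 1 + 1) = (2 * K + 1) * i + 4 * K + 2 := by ring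
      omega
  simp [cf_ext key]

theorem w0_not_mem_L {n s : ℕ} {δ : Fin s → ℕ} (h : ∑ i, δ i = n + 2 + 1) :
    w0 (n + 1) ∉ zcl (L δ) :=
  not_mem_zcl _ (S2_V _ (w0_S2 n)) (w0_inj n) (L_V h) fun _ => L_not_inj h

end Pool.Agent.MP_05b4bd_ag

end MrgPart0

-- ======== part 1: formerly Pool.Agent.MP_05b4bd_ag.Degen
section MrgPart1

namespace Pool.Agent.MP_05b4bd_ag

open MvPolynomial Topology

noncomputable def Tp (b : ℂ) (x y : Poly) : ℕ → Poly
  | 0 => 1
  | 1 => C (b / 2) * y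
  | n + 2 => C (2 * ((n : ℂ) + 2))⁻¹ * ((C b - 2 * ((n : Poly) + 1)) * y * Tp b x y (n + 1) +
      (2 * C b - 2 * (n : Poly)) * x ^ 2 * Tp b x y n)

theorem Tp_one (b : ℂ) (x y : Poly) : 2 * Tp b x y 1 = C b * y := by
  have : (2 : Poly) * C (b / 2) = C b := by
    rw [← map_ofNat (C : ℂ →+* Poly), ← map_mul]; congr 1; ring
  rw [Tp, ← mul_assoc, this]

theorem Tp_rec (b : ℂ) (x y : Poly) (n : ℕ) : 2 * ((n : Poly) + 2) * Tp b x y (n + 2) =
    (C b - 2 * ((n : Poly) + 1)) * y * Tp b x y (n + 1) + (2 * C b - 2 * (n : Poly)) * x ^ 2 * Tp b x y n := by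
  have hn : 2 * ((n : ℂ) + 2) ≠ 0 := by exact_mod_cast (by omega : 2 * (n + 2) ≠ 0)
  have : 2 * ((n : Poly) + 2) * C (2 * ((n : ℂ) + 2))⁻¹ = 1 := by
    have e : 2 * ((n : Poly) + 2) = C (2 * ((n : ℂ) + 2)) := by simp [map_ofNat]
    rw [e, ← map_mul, mul_inv_cancel₀ hn, map_one]
  rw [Tp, ← mul_assoc, this, one_mul]

theorem D_ofNat (D : Derivation ℂ Poly Poly) (n : ℕ) [n.AtLeastTwo] : D (ofNat(n) : Poly) = 0 := by
  rw [← map_ofNat (C : ℂ →+* Poly)]; exact derivation_C D _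

theorem Tp_E (D : Derivation ℂ Poly Poly) (b : ℂ) (x y : Poly) (n : ℕ) :
    2 * D (Tp b x y (n + 2)) + 2 * y * D (Tp b x y (n + 1)) + 2 * x ^ 2 * D (Tp b x y n) -
      C b * Tp b x y (n + 1) * D y - C b * Tp b x y n * (2 * x * D x) = 0 := by
  have dC : ∀ c : ℂ, D (C c) = 0 := fun c => derivation_C D c
  have r := Tp_rec b x y
  have dr : ∀ n : ℕ, 2 * ((n : Poly) + 2) * D (Tp b x y (n + 2)) =
      (C b - 2 * ((n : Poly) + 1)) * (y * D (Tp b x y (n + 1)) + Tp b x y (n + 1) * D y) +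
      (2 * C b - 2 * (n : Poly)) * (x ^ 2 * D (Tp b x y n) + Tp b x y n * (2 * x * D x)) := fun n => by
    have := congrArg D (r n)
    simp only [Derivation.leibniz, map_add, map_sub, dC, D_ofNat, Derivation.map_natCast,
      Derivation.map_one_eq_zero, smul_eq_mul, Derivation.leibniz_pow, nsmul_eq_mul] at this
    push_cast at this
    linear_combination this
  have r0 := Tp_one b x y
  have dr0 : 2 * D (Tp b x y 1) = C b * D y := by
    have := congrArg D r0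
    simp only [Derivation.leibniz, dC, D_ofNat, smul_eq_mul] at this
    linear_combination this
  have t0 : Tp b x y 0 = 1 := rfl
  have d0 : D (Tp b x y 0) = 0 := by rw [t0]; simp
  induction n using Nat.twoStepInduction with
  | zero =>
    refine mul_left_cancel₀ (a := (4 : Poly)) (by norm_num) ?_
    have := dr 0
    rw [d0, t0] at this ⊢
    push_cast at this
    linear_combination 2 * this + (C b + 2) * y * dr0 - (C b + 2) * D y * r0
  | one =>
    refine mul_left_cancel₀ (a := (24 : Poly)) (by norm_num) ?_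
    have h1 := dr 1
    have h0 := dr 0
    have g0 := r 0
    rw [d0, t0] at h0
    rw [t0] at g0
    push_cast at h0 h1 g0
    linear_combination 8 * h1 + (2 * C b + 4) * y * h0 - (C b + 2) * 4 * D y * g0 +
      (C b + 2) * (8 * x ^ 2 + (C b - 2) * y ^ 2) * dr0 -
      (C b + 2) * (8 * x * D x + (C b - 2) * y * D y) * r0
  | more k ih0 ih1 =>
    have hk : (2 * ((k : Poly) + 4)) ≠ 0 := by exact_mod_cast (by omega : 2 * (k + 4) ≠ 0)
    refine mul_left_cancel₀ hk ?_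
    have a2 := dr (k + 2)
    have a1 := dr (k + 1)
    have a0 := dr k
    have b1 := r (k + 1)
    have b0 := r k
    push_cast at a2 a1 b1
    linear_combination 2 * a2 + 2 * y * a1 + 2 * x ^ 2 * a0 - (C b + 2) * D y * b1 -
      (C b + 2) * (2 * x * D x) * b0 + (C b + 2 - 2 * (k + 3)) * y * ih1 +
      (2 * (C b + 2) - 2 * (k + 2)) * x ^ 2 * ih0

theorem Tp_deg (b : ℂ) {x y : Poly} (hx : x.totalDegree ≤ 1) (hy : y.totalDegree ≤ 1) (n : ℕ) :
    (Tp b x y n).totalDegree ≤ n := by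
  induction n using Nat.twoStepInduction with
  | zero => simp [Tp]
  | one => exact dg_Cmul _ hy
  | more k ih0 ih1 =>
    have e1 : (C b - 2 * ((k : Poly) + 1) : Poly) = C (b - 2 * (k + 1)) := by simp [map_ofNat]
    have e2 : (2 * C b - 2 * (k : Poly) : Poly) = C (2 * b - 2 * k) := by simp [map_ofNat]
    rw [Tp, e1, e2]
    exact dg_Cmul _ (dg_add (dg_mul (dg_Cmul _ hy) ih1 (by omega))
      (dg_mul (dg_Cmul _ (dg_pow hx 2 le_rfl)) ih0 (by omega)))

theorem Tp_tel (D : Derivation ℂ Poly Poly) (b ε : ℂ) (x y : Poly) (m : ℕ) :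
    2 * ((C ε * x) ^ 2 + (1 + C ε * y)) * D (∑ n ∈ Finset.range (m + 2), C ε ^ n * Tp b x y n) -
      C b * (∑ n ∈ Finset.range (m + 2), C ε ^ n * Tp b x y n) *
        D ((C ε * x) ^ 2 + (1 + C ε * y)) =
    -2 * C ε ^ (m + 2) * D (Tp b x y (m + 2)) + C ε ^ (m + 3) *
      (2 * x ^ 2 * D (Tp b x y (m + 1)) - C b * Tp b x y (m + 1) * D (x ^ 2)) := by
  have dC : ∀ c : ℂ, D (C c) = 0 := fun c => derivation_C D c
  have dF : D ((C ε * x) ^ 2 + (1 + C ε * y)) = C ε ^ 2 * (2 * x * D x) + C ε * D y := by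
    simp [Derivation.leibniz, dC, Derivation.leibniz_pow]; ring
  have dx : D (x ^ 2) = 2 * x * D x := by simp [Derivation.leibniz_pow]; ring
  have dT : ∀ (n : ℕ) (p : Poly), D (C ε ^ n * p) = C ε ^ n * D p := fun n p => by
    rw [← map_pow, Derivation.leibniz, dC]; simp
  rw [dF, dx]
  induction m with
  | zero =>
    have E := Tp_E D b x y 0
    have r0 := Tp_one b x y
    have dr0 : 2 * D (Tp b x y 1) = C b * D y := by
      have := congrArg D r0
      simp only [Derivation.leibniz, dC, D_ofNat, smul_eq_mul] at this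
      linear_combination this
    have t0 : Tp b x y 0 = 1 := rfl
    simp only [zero_add, Finset.sum_range_succ, Finset.sum_range_zero, map_add, dT] at E ⊢
    rw [t0, Derivation.map_one_eq_zero] at E ⊢
    linear_combination C ε ^ 2 * E + C ε * dr0
  | succ m ih =>
    have E := Tp_E D b x y (m + 1)
    rw [Finset.sum_range_succ _ (m + 2), map_add, dT]
    linear_combination ih + C ε ^ (m + 3) * E

theorem degen {m : ℕ} {x y h : Poly} (hx : x.totalDegree ≤ 1) (hy : y.totalDegree ≤ 1)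
    (hh : h.totalDegree ≤ m + 1) (c : ℂ) {g W : ℂ → Poly} (hW : PC W)
    (hg : ∀ ε, (g ε).totalDegree ≤ m + 1)
    (hS : ∀ ε, C c * Sp (m + 1) (C ε * x) (1 + C ε * y) = g ε + C ε ^ (m + 2) * W ε) :
    dform (Tp (2 * ((m + 1 : ℕ) : ℂ) + 1) x y (m + 2) + W 0 + h) ∈ zcl (S2 (m + 1)) := by
  set b : ℂ := 2 * ((m + 1 : ℕ) : ℂ) + 1 with hb
  have hγ : PF fun ε => dform (Tp b x y (m + 2)) +
      Dm 1 (-b / 2) ((C ε * x) ^ 2 + (1 + C ε * y)) (W ε + h) -
      ε • Dm 1 (-b / 2) (x ^ 2) (Tp b x y (m + 1)) :=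
    ((PF.const _).add (PF.Dm (PS.const _) (PS.const _)
      (((PS.id.toC.mul (PC.const x)).pow 2).add ((PC.const 1).add (PS.id.toC.mul (PC.const y))))
      (hW.add (PC.const h)))).sub (PF.smul PS.id (PF.const _))
  have := hγ.mem_zcl_of_ne (S := S2 (m + 1)) fun ε hε => subset_zcl _
    ⟨(2 * ε ^ (m + 2))⁻¹ * c, C ε * x, 1 + C ε * y, C (2 * ε ^ (m + 2))⁻¹ *
      (C ε ^ (m + 2) * h - g ε - ∑ n ∈ Finset.range (m + 2), C ε ^ n * Tp b x y n),
      dg_Cmul _ hx, dg_add (by simp) (dg_Cmul _ hy), dg_Cmul _ (dg_sub (dg_sub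
        (by rw [← map_pow]; exact dg_Cmul _ hh) (hg ε))
        (totalDegree_finsetSum_le fun n hn => by
          rw [← map_pow]
          exact dg_Cmul _ ((Tp_deg b hx hy n).trans (by simp at hn; omega)))), by
      have hC : (C (2 * ε ^ (m + 2))⁻¹ : Poly) * (2 * C ε ^ (m + 2)) = 1 := by
        have : (2 * C ε ^ (m + 2) : Poly) = C (2 * ε ^ (m + 2)) := by simp [map_ofNat]
        rw [this, ← map_mul, inv_mul_cancel₀ (mul_ne_zero two_ne_zero (pow_ne_zero _ hε)), map_one]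
      have hG : C ((2 * ε ^ (m + 2))⁻¹ * c) * Sp (m + 1) (C ε * x) (1 + C ε * y) +
          C (2 * ε ^ (m + 2))⁻¹ * (C ε ^ (m + 2) * h - g ε -
            ∑ n ∈ Finset.range (m + 2), C ε ^ n * Tp b x y n) =
          C (2 * ε ^ (m + 2))⁻¹ * (C ε ^ (m + 2) * (W ε + h) -
            ∑ n ∈ Finset.range (m + 2), C ε ^ n * Tp b x y n) := by
        rw [map_mul, mul_assoc, hS]; ring
      have hb2 : (2 : Poly) * C (-b / 2) = -C b := by
        rw [← map_ofNat (C : ℂ →+* Poly), ← map_mul, ← map_neg]; congr 1; ring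
      have dT : ∀ (i : Fin 2) (p : Poly), pderiv i (C ε ^ (m + 2) * p) =
          C ε ^ (m + 2) * pderiv i p := fun i p => by rw [← map_pow, pderiv_C_mul]
      have e2 : (C 2 : Poly) = 2 := rfl
      rw [fam, hG, ← hb]
      generalize (W ε + h) = Z
      have t1 := Tp_tel (pderiv 1) b ε x y m
      have t0 := Tp_tel (pderiv 0) b ε x y m
      generalize (∑ n ∈ Finset.range (m + 2), C ε ^ n * Tp b x y n) = Sg at t0 t1 ⊢
      generalize ((C ε * x) ^ 2 + (1 + C ε * y)) = F at t0 t1 ⊢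
      refine Prod.ext ?_ ?_
      · simp only [Dm_fst, dform, Prod.fst_add, Prod.fst_sub, Prod.smul_fst, smul_eq_C_mul,
          pderiv_C_mul, map_sub, dT, map_neg, map_one, e2]
        linear_combination C (2 * ε ^ (m + 2))⁻¹ * t1 - (pderiv 1 (Tp b x y (m + 2)) +
          F * pderiv 1 Z - C ε * x ^ 2 * pderiv 1 (Tp b x y (m + 1)) + C (-b / 2) *
          (Z * pderiv 1 F - C ε * Tp b x y (m + 1) * pderiv 1 (x ^ 2))) * hC +
          C (2 * ε ^ (m + 2))⁻¹ * C ε ^ (m + 2) *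
          (Z * pderiv 1 F - C ε * Tp b x y (m + 1) * pderiv 1 (x ^ 2)) * hb2
      · simp only [Dm_snd, dform, Prod.snd_add, Prod.snd_sub, Prod.smul_snd, smul_eq_C_mul,
          pderiv_C_mul, map_sub, dT, map_neg, map_one, e2]
        linear_combination -C (2 * ε ^ (m + 2))⁻¹ * t0 + (pderiv 0 (Tp b x y (m + 2)) +
          F * pderiv 0 Z - C ε * x ^ 2 * pderiv 0 (Tp b x y (m + 1)) + C (-b / 2) *
          (Z * pderiv 0 F - C ε * Tp b x y (m + 1) * pderiv 0 (x ^ 2))) * hC -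
          C (2 * ε ^ (m + 2))⁻¹ * C ε ^ (m + 2) *
          (Z * pderiv 0 F - C ε * Tp b x y (m + 1) * pderiv 0 (x ^ 2)) * hb2⟩
  have e : Dm 1 (-b / 2) ((C 0 * x) ^ 2 + (1 + C 0 * y)) (W 0 + h) = dform (W 0 + h) := by
    simp [Dm, dform]
  simp only [e, zero_smul, sub_zero] at this
  have e' : dform (Tp b x y (m + 2) + W 0 + h) = dform (Tp b x y (m + 2)) + dform (W 0 + h) := by
    simp [dform]; constructor <;> ring
  rwa [e']

end Pool.Agent.MP_05b4bd_ag

end MrgPart1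

-- ======== part 2: formerly Pool.Agent.MP_05b4bd_ag.Sard
section MrgPart2

namespace Pool.Agent.MP_05b4bd_ag

open MvPolynomial Topology

theorem meagre_of_local {X E : Type*} [TopologicalSpace X] [SecondCountableTopology X]
    [TopologicalSpace E] {Y : Set X} {F : X → E}
    (h : ∀ y ∈ Y, ∃ U ∈ 𝓝 y, IsMeagre (F '' (Y ∩ U))) : IsMeagre (F '' Y) := by
  choose! U hU hm using h
  obtain ⟨t, ht, hc, hcov⟩ := TopologicalSpace.countable_cover_nhdsWithin (f := U) (s := Y)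
    fun y hy => mem_nhdsWithin_of_mem_nhds (hU y hy)
  refine (isMeagre_biUnion hc fun y hy => hm y (ht hy)).mono ?_
  rintro _ ⟨x, hx, rfl⟩
  obtain ⟨y, hy, hxy⟩ := Set.mem_iUnion₂.1 (hcov hx)
  exact Set.mem_iUnion₂.2 ⟨y, hy, x, ⟨hx, hxy⟩, rfl⟩

theorem meagre_zero {φ : (Fin 2 → ℂ) → ℂ} {a : Fin 2 → ℂ} (hφ : ContDiffAt ℂ 1 φ a)
    (hd : fderiv ℂ φ a ≠ 0) : ∃ W ∈ 𝓝 a, IsMeagre (W ∩ {x | φ x = 0}) := by
  have h1 : ∀ᶠ x in 𝓝 a, ContinuousAt φ x :=
    (hφ.eventually (by simp)).mono fun x hx => hx.continuousAt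
  have h2 : ∀ᶠ x in 𝓝 a, fderiv ℂ φ x ≠ 0 :=
    (hφ.continuousAt_fderiv (by simp)).eventually_ne hd
  obtain ⟨W, hW, hWs, hWc⟩ := exists_mem_nhds_isClosed_subset (h1.and h2) |>.imp
    fun W h => (⟨h.1, h.2.2, h.2.1⟩ : W ∈ 𝓝 a ∧ W ⊆ _ ∧ IsClosed W)
  refine ⟨W, hW, IsNowhereDense.isMeagre ?_⟩
  have hc : IsClosed (W ∩ {x | φ x = 0}) :=
    ContinuousOn.preimage_isClosed_of_isClosed (f := φ) (t := {0})
      (fun x hx => (hWs hx).1.continuousWithinAt) hWc isClosed_singleton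
  rw [hc.isNowhereDense_iff, Set.eq_empty_iff_forall_notMem]
  intro x hx
  have h3 : φ =ᶠ[𝓝 x] fun _ => 0 :=
    Filter.mem_of_superset (mem_interior_iff_mem_nhds.1 hx) fun y hy => hy.2
  exact (hWs (interior_subset hx).1).2 (by rw [h3.fderiv_eq]; simp)

noncomputable def ngrad (f : Poly) (z : Fin 2 → ℂ) : Fin 2 → ℂ := fun i => -eval z (pderiv i f)

noncomputable def nhess (f : Poly) (z : Fin 2 → ℂ) : (Fin 2 → ℂ) →L[ℂ] (Fin 2 → ℂ) :=
  ContinuousLinearMap.pi fun i =>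
    -(eval z (pderiv 0 (pderiv i f)) • ContinuousLinearMap.proj (R := ℂ) (φ := fun _ : Fin 2 => ℂ) 0 +
      eval z (pderiv 1 (pderiv i f)) • ContinuousLinearMap.proj (R := ℂ) (φ := fun _ : Fin 2 => ℂ) 1)

theorem hasFDerivAt_ngrad (f : Poly) (z : Fin 2 → ℂ) : HasFDerivAt (ngrad f) (nhess f z) z :=
  hasFDerivAt_pi.2 fun i => (hasFDerivAt_eval (pderiv i f) z).neg

theorem contDiffAt_eval (f : Poly) (z : Fin 2 → ℂ) :
    ContDiffAt ℂ 1 (fun w : Fin 2 → ℂ => eval w f) z := (analyticAt_eval f z).contDiffAt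

theorem contDiffAt_ngrad (f : Poly) (z : Fin 2 → ℂ) : ContDiffAt ℂ 1 (ngrad f) z :=
  contDiffAt_pi.2 fun i => (contDiffAt_eval (pderiv i f) z).neg

theorem nhess_inj_iff (f : Poly) (z : Fin 2 → ℂ) :
    Function.Injective (nhess f z) ↔ eval z (jac (dform f)) ≠ 0 := by
  have e : LinearMap.det (nhess f z : (Fin 2 → ℂ) →ₗ[ℂ] (Fin 2 → ℂ)) = eval z (jac (dform f)) := by
    rw [← LinearMap.det_toMatrix', Matrix.det_fin_two]
    simp [nhess, jac, dform, pderiv_comm]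
    ring
  rw [← e, Ne, LinearMap.det_eq_zero_iff_ker_ne_bot, not_not, LinearMap.ker_eq_bot]
  rfl

theorem meagre_crit (f : Poly) : IsMeagre (ngrad f '' {z | eval z (jac (dform f)) = 0}) := by
  have hnull : MeasureTheory.volume (ngrad f '' {z | eval z (jac (dform f)) = 0}) = 0 := by
    refine MeasureTheory.addHaar_image_eq_zero_of_det_fderivWithin_eq_zero MeasureTheory.volume
      (f' := fun z => (nhess f z).restrictScalars ℝ)
      (fun z _ => ((hasFDerivAt_ngrad f z).restrictScalars ℝ).hasFDerivWithinAt) fun z hz => ?_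
    rw [ContinuousLinearMap.det, LinearMap.det_eq_zero_iff_ker_ne_bot, Ne, LinearMap.ker_eq_bot]
    exact fun h => (nhess_inj_iff f z).1 h hz
  refine meagre_of_local fun z _ => ⟨Metric.closedBall z 1, Metric.closedBall_mem_nhds z one_pos,
    IsNowhereDense.isMeagre ?_⟩
  have hc : IsCompact ({z | eval z (jac (dform f)) = 0} ∩ Metric.closedBall z 1) :=
    (isCompact_closedBall z 1).inter_left (isClosed_eq
      (continuous_iff_continuousAt.2 fun w => (analyticAt_eval _ w).continuousAt) continuous_const)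
  have hc2 := hc.image (continuous_iff_continuousAt.2 fun w => (contDiffAt_ngrad f w).continuousAt)
  rw [hc2.isClosed.isNowhereDense_iff]
  exact MeasureTheory.Measure.interior_eq_empty_of_null (μ := MeasureTheory.volume)
    (MeasureTheory.measure_mono_null (Set.image_mono Set.inter_subset_left) hnull)

theorem exists_branch (f : Poly) {p : Fin 2 → ℂ} (hp : eval p (jac (dform f)) ≠ 0) :
    ∃ ψ : (Fin 2 → ℂ) → ℂ, ContDiffAt ℂ 1 ψ (ngrad f p) ∧
      (∀ v, fderiv ℂ ψ (ngrad f p) v = v 0 * p 0 + v 1 * p 1) ∧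
      ∀ᶠ z in 𝓝 p, ψ (ngrad f z) = eval z f + (ngrad f z 0 * z 0 + ngrad f z 1 * z 1) := by
  have hinj := (nhess_inj_iff f p).2 hp
  let e : (Fin 2 → ℂ) ≃L[ℂ] (Fin 2 → ℂ) := (LinearEquiv.ofInjectiveEndo
    (nhess f p : (Fin 2 → ℂ) →ₗ[ℂ] (Fin 2 → ℂ)) hinj).toContinuousLinearEquiv
  have he : HasFDerivAt (ngrad f) (e : (Fin 2 → ℂ) →L[ℂ] (Fin 2 → ℂ)) p :=
    hasFDerivAt_ngrad f p
  have hc := contDiffAt_ngrad f p
  set P := hc.localInverse he one_ne_zero with hP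
  have hPc : ContDiffAt ℂ 1 P (ngrad f p) := hc.to_localInverse he one_ne_zero
  have hPp : P (ngrad f p) = p := hc.localInverse_apply_image he one_ne_zero
  have hPl : ∀ᶠ z in 𝓝 p, P (ngrad f z) = z :=
    (hc.hasStrictFDerivAt' he one_ne_zero).eventually_left_inverse
  have hi : ∀ i, ContDiffAt ℂ 1 (fun a : Fin 2 → ℂ => a i * P a i) (ngrad f p) := fun i =>
    (contDiffAt_apply ℂ ℂ i _).mul (contDiffAt_pi.1 hPc i)
  refine ⟨fun a => eval (P a) f + (a 0 * P a 0 + a 1 * P a 1),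
    ((contDiffAt_eval f _).comp _ hPc).add ((hi 0).add (hi 1)), fun v => ?_, ?_⟩
  · have hd := (hPc.differentiableAt one_ne_zero).hasFDerivAt
    have h1 := (hasFDerivAt_eval f (P (ngrad f p))).comp _ hd
    have h2 := fun i => (hasFDerivAt_apply (𝕜 := ℂ) i (ngrad f p)).mul (hasFDerivAt_pi'.1 hd i)
    have h3 : fderiv ℂ (fun a => eval (P a) f + (a 0 * P a 0 + a 1 * P a 1)) (ngrad f p) = _ :=
      (h1.add ((h2 0).add (h2 1))).fderiv
    rw [h3]
    simp [hPp, ngrad]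
    ring
  · filter_upwards [hPl] with z hz
    rw [hz]

theorem dense_morse (f : Poly) :
    Dense {a : Fin 2 → ℂ | Morse (f + (C (a 0) * X 0 + C (a 1) * X 1))} := by
  set Y : Set ((Fin 2 → ℂ) × (Fin 2 → ℂ)) := {y | y.1 ≠ y.2 ∧ eval y.1 (jac (dform f)) ≠ 0 ∧
    eval y.2 (jac (dform f)) ≠ 0 ∧ ngrad f y.1 = ngrad f y.2 ∧
    eval y.1 f + (ngrad f y.1 0 * y.1 0 + ngrad f y.1 1 * y.1 1) =
      eval y.2 f + (ngrad f y.2 0 * y.2 0 + ngrad f y.2 1 * y.2 1)} with hY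
  have h2 : IsMeagre ((fun y => ngrad f y.1) '' Y) := by
    refine meagre_of_local ?_
    rintro ⟨p, q⟩ ⟨hpq, hp, hq, hg, -⟩
    obtain ⟨ψ, c1, d1, e1⟩ := exists_branch f hp
    obtain ⟨χ, c2, d2, e2⟩ := exists_branch f hq
    simp only at hg hpq
    rw [← hg] at c2 d2
    obtain ⟨W, hW, hm⟩ := meagre_zero (c1.sub c2) (fun h => hpq (by
      rw [fderiv_fun_sub (c1.differentiableAt one_ne_zero) (c2.differentiableAt one_ne_zero)] at h
      have k0 := congrArg (fun l => l ![1, 0]) h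
      have k1 := congrArg (fun l => l ![0, 1]) h
      simp [d1, d2, sub_eq_zero] at k0 k1
      ext i; fin_cases i
      · exact k0
      · exact k1))
    have hW' : ∀ᶠ z in 𝓝 p, ngrad f z ∈ W :=
      (contDiffAt_ngrad f p).continuousAt.preimage_mem_nhds hW
    refine ⟨_, prod_mem_nhds (e1.and hW') e2, hm.mono ?_⟩
    rintro _ ⟨⟨z, w⟩, ⟨⟨-, -, -, g1, g2⟩, ⟨a1, a2⟩, a3⟩, rfl⟩
    refine ⟨a2, ?_⟩
    simp only [Set.mem_ofPred_eq] at a1 a3 g1 g2 ⊢
    rw [a1, g2, g1, a3, sub_self]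
  have h3 := (meagre_crit f).union h2
  refine (dense_of_mem_residual h3).mono fun a ha => ?_
  rw [Set.mem_compl_iff, Set.mem_union, not_or] at ha
  have key : ∀ p, (∀ i, eval p (pderiv i (f + (C (a 0) * X 0 + C (a 1) * X 1))) = 0) →
      ngrad f p = a := fun p hp => by
    have h0 := hp 0
    have h1 := hp 1
    simp at h0 h1
    ext i; fin_cases i
    · simp only [ngrad, Fin.zero_eta]; linear_combination -h0
    · simp only [ngrad, Fin.mk_one]; linear_combination -h1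
  have hj : jac (dform (f + (C (a 0) * X 0 + C (a 1) * X 1))) = jac (dform f) := by
    simp [jac, dform]
  have nd : ∀ p, ngrad f p = a → eval p (jac (dform f)) ≠ 0 := fun p hp h0 => ha.1 ⟨p, h0, hp⟩
  refine ⟨fun p hp => by rw [hj]; exact nd p (key p hp), fun p q hp hq hpq => ?_⟩
  by_contra hne
  have kp := key p hp
  have kq := key q hq
  refine ha.2 ⟨(p, q), ⟨hne, nd p kp, nd q kq, kp.trans kq.symm, ?_⟩, kp⟩
  simpa [kp, kq] using hpq

theorem exists_morse (f : Poly) : ∃ a : Fin 2 → ℂ, Morse (f + (C (a 0) * X 0 + C (a 1) * X 1)) :=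
  (dense_morse f).nonempty

end Pool.Agent.MP_05b4bd_ag

end MrgPart2

-- ======== part 3: formerly Pool.Agent.MP_05b4bd_ag.Grad
section MrgPart3

namespace Pool.Agent.MP_05b4bd_ag

open MvPolynomial Topology

theorem Tp_homog (b : ℂ) {x y : Poly} (hx : x.IsHomogeneous 1) (hy : y.IsHomogeneous 1) (n : ℕ) :
    (Tp b x y n).IsHomogeneous n := by
  induction n using Nat.twoStepInduction with
  | zero => exact isHomogeneous_one _ _
  | one => exact hy.C_mul _
  | more k ih0 ih1 =>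
    have e1 : (C b - 2 * ((k : Poly) + 1) : Poly) = C (b - 2 * (k + 1)) := by simp [map_ofNat]
    have e2 : (2 * C b - 2 * (k : Poly) : Poly) = C (2 * b - 2 * k) := by simp [map_ofNat]
    rw [Tp, e1, e2]
    refine IsHomogeneous.C_mul (IsHomogeneous.add ?_ ?_) _
    · have := (hy.C_mul (b - 2 * (k + 1))).mul ih1
      rwa [show 1 + (k + 1) = k + 2 by omega] at this
    · have := ((hx.pow 2).C_mul (2 * b - 2 * k)).mul ih0
      rwa [show 1 * 2 + k = k + 2 by omega] at this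

theorem Tp_grad (m : ℕ) (z : Fin 2 → ℂ)
    (h : ∀ i, eval z (pderiv i (Tp (2 * ((m + 1 : ℕ) : ℂ) + 1) (X 0) (X 1) (m + 2))) = 0) :
    z = 0 := by
  set b : ℂ := 2 * ((m + 1 : ℕ) : ℂ) + 1 with hb
  set a : ℕ → ℂ := fun n => eval z (pderiv 1 (Tp b (X 0) (X 1) n)) with ha
  set c : ℕ → ℂ := fun n => eval z (pderiv 0 (Tp b (X 0) (X 1) n)) with hc
  set t : ℕ → ℂ := fun n => eval z (Tp b (X 0) (X 1) n) with ht
  have E1 : ∀ n, 2 * a (n + 2) + 2 * z 1 * a (n + 1) + 2 * z 0 ^ 2 * a n - b * t (n + 1) = 0 :=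
    fun n => by simpa using congrArg (eval z) (Tp_E (pderiv 1) b (X 0) (X 1) n)
  have E0 : ∀ n, 2 * c (n + 2) + 2 * z 1 * c (n + 1) + 2 * z 0 ^ 2 * c n - b * t n * (2 * z 0) = 0 :=
    fun n => by simpa using congrArg (eval z) (Tp_E (pderiv 0) b (X 0) (X 1) n)
  have R1 : ∀ n : ℕ, 2 * ((n : ℂ) + 2) * a (n + 2) = (b - 2 * (n + 1)) * (z 1 * a (n + 1) + t (n + 1))
      + (2 * b - 2 * n) * z 0 ^ 2 * a n := fun n => by
    have := congrArg (fun p => eval z (pderiv 1 p)) (Tp_rec b (X 0) (X 1) n)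
    simp at this
    simp only [ha, ht]
    linear_combination this
  have a0 : a 0 = 0 := by simp [ha, Tp]
  have a1 : a 1 = b / 2 := by simp [ha, Tp]
  have c0 : c 0 = 0 := by simp [hc, Tp]
  have c1 : c 1 = 0 := by simp [hc, Tp]
  have t0 : t 0 = 1 := by simp [ht, Tp]
  have hb0 : b ≠ 0 := by rw [hb]; exact_mod_cast (by omega : 2 * (m + 1) + 1 ≠ 0)
  have hb2 : b + 2 ≠ 0 := by rw [hb]; exact_mod_cast (by omega : 2 * (m + 1) + 1 + 2 ≠ 0)
  have ar : ∀ n : ℕ, 2 * ((n : ℂ) + 1) * a (n + 2) = (b - 2 * n - 2) * z 1 * a (n + 1) +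
      (2 * b - 2 * n - 2) * z 0 ^ 2 * a n := fun n =>
    mul_left_cancel₀ hb2 (by linear_combination b * R1 n - (b - 2 * (n + 1)) * E1 n)
  have dl : ∀ n, c (n + 1) = 2 * z 0 * a n := fun n => by
    induction n using Nat.twoStepInduction with
    | zero => rw [c1, a0, mul_zero]
    | one => have := E0 0; rw [c0, c1, t0] at this; rw [a1]; linear_combination this / 2
    | more k ih0 ih1 =>
      linear_combination E0 (k + 1) / 2 - z 0 * E1 k - z 1 * ih1 - z 0 ^ 2 * ih0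
  have h1 : a (m + 2) = 0 := h 1
  have h0 : c (m + 2) = 0 := h 0
  by_cases hx : z 0 = 0
  · by_cases hy : z 1 = 0
    · ext i; fin_cases i
      · exact hx
      · exact hy
    exfalso
    have : ∀ n, a (n + 1) ≠ 0 := fun n => by
      induction n with
      | zero => rw [a1]; exact div_ne_zero hb0 two_ne_zero
      | succ n ih =>
        intro h'
        have := ar n
        rw [h', hx] at this
        have hn : b - 2 * n - 2 ≠ 0 := by
          rw [hb]; intro h2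
          have : 2 * (m + 1) + 1 = 2 * n + 2 := by
            exact_mod_cast (by linear_combination h2 : 2 * ((m + 1 : ℕ) : ℂ) + 1 = 2 * n + 2)
          omega
        exact mul_ne_zero (mul_ne_zero hn hy) ih (by linear_combination -this)
    exact this _ h1
  exfalso
  have back : ∀ n, n ≤ m + 1 → a (n + 1) = 0 → a n = 0 → a 1 = 0 := fun n => by
    induction n with
    | zero => exact fun _ h _ => h
    | succ n ih =>
      intro hn h2 h1
      refine ih (by omega) h1 ?_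
      have := ar n
      rw [h2, h1] at this
      have hn' : 2 * b - 2 * n - 2 ≠ 0 := by
        rw [hb]; intro h2
        have : 2 * (2 * (m + 1) + 1) = 2 * n + 2 := by
          exact_mod_cast (by linear_combination h2 : 2 * (2 * ((m + 1 : ℕ) : ℂ) + 1) = 2 * n + 2)
        omega
      exact mul_left_cancel₀ (mul_ne_zero hn' (pow_ne_zero 2 hx)) (by linear_combination -this)
  have h3 : a (m + 1) = 0 :=
    mul_left_cancel₀ (mul_ne_zero two_ne_zero hx) (by rw [← dl, h0, mul_zero])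
  have := back (m + 1) le_rfl h1 h3
  rw [a1] at this
  exact div_ne_zero hb0 two_ne_zero this

theorem exists_new_component (m : ℕ) : ∃ Z, IsComponent (M (m + 2)) Z ∧ zcl (S2 (m + 1)) ⊆ Z ∧
    (∀ (s : ℕ) (δ : Fin s → ℕ), ∑ i, δ i = m + 2 + 1 → ¬ Z ⊆ zcl (L δ)) ∧
    (∀ i ≤ m + 2, ¬ Z ⊆ zcl (A (m + 2) i)) ∧ ¬ Z ⊆ zcl (B (m + 2)) := by
  obtain ⟨Z, hZ, hS⟩ := exists_component (S2_irred (m + 1)).zcl (zcl_subset (S2_M m))
  exact ⟨Z, hZ, hS, fun s δ h hs => w0_not_mem_L h (hs (hS (subset_zcl _ (w0_S2 m)))),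
    not_component (by omega) hZ⟩

theorem main_b (d : ℕ) (hd : 2 ≤ d) : ∃ Z, IsComponent (M d) Z ∧
    (∀ (s : ℕ) (δ : Fin s → ℕ), ∑ i, δ i = d + 1 → ¬ Z ⊆ zcl (L δ)) ∧
    (∀ i ≤ d, ¬ Z ⊆ zcl (A d i)) ∧ ¬ Z ⊆ zcl (B d) ∧
    ∃ T : Poly, T.IsHomogeneous d ∧ (∀ z, (∀ i, eval z (pderiv i T) = 0) → z = 0) ∧
      (∀ h : Poly, h.totalDegree < d → dform (T + h) ∈ Z) ∧
      ∃ h : Poly, h.totalDegree < d ∧ Morse (T + h) := by
  obtain ⟨m, rfl⟩ : ∃ m, d = m + 2 := ⟨d - 2, by omega⟩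
  obtain ⟨Z, hZ, hS, h1, h2, h3⟩ := exists_new_component m
  refine ⟨Z, hZ, h1, h2, h3, _, Tp_homog _ (isHomogeneous_X _ 0) (isHomogeneous_X _ 1) _,
    Tp_grad m, fun h hh => hS ?_, ?_⟩
  · have := degen (m := m) (dg_X 0) (dg_X 1) (h := h) (by omega) 0 (g := fun _ => 0)
      (PC.const 0) (by simp) (by simp)
    simpa using this
  · obtain ⟨a, ha⟩ := exists_morse (Tp (2 * ((m + 1 : ℕ) : ℂ) + 1) (X 0) (X 1) (m + 2))
    refine ⟨_, ?_, ha⟩
    have := dg_add (dg_Cmul (a 0) (dg_X 0)) (dg_Cmul (a 1) (dg_X 1))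
    omega

end Pool.Agent.MP_05b4bd_ag

end MrgPart3

-- ======== part 4: formerly Pool.Agent.MP_05b4bd_ag.Fermat
section MrgPart4

namespace Pool.Agent.MP_05b4bd_ag

open MvPolynomial Topology

theorem pderiv_aeval (i : Fin 2) (x y p : Poly) : pderiv i (aeval ![x, y] p) =
    aeval ![x, y] (pderiv 0 p) * pderiv i x + aeval ![x, y] (pderiv 1 p) * pderiv i y := by
  induction p using MvPolynomial.induction_on with
  | C a => simp
  | add p q hp hq => simp only [map_add, hp, hq]; ring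
  | mul_X p j hp =>
    simp only [map_mul, aeval_X, Derivation.leibniz, smul_eq_mul, hp, map_add]
    fin_cases j <;> simp <;> ring

theorem Tp_map (φ : Poly →ₐ[ℂ] Poly) (b : ℂ) (x y : Poly) (n : ℕ) :
    φ (Tp b x y n) = Tp b (φ x) (φ y) n := by
  have hC : ∀ c, φ (C c) = C c := fun c => φ.commutes c
  induction n using Nat.twoStepInduction with
  | zero => simp [Tp]
  | one => simp only [Tp, map_mul, hC]
  | more k ih0 ih1 =>
    simp only [Tp, map_mul, map_add, map_sub, map_pow, hC, ih0, ih1, map_natCast, map_ofNat, map_one]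

theorem Tp_dx (b : ℂ) (n : ℕ) : pderiv 0 (Tp b (X 0) (X 1) (n + 1)) =
    2 * X 0 * pderiv 1 (Tp b (X 0) (X 1) n) := by
  have E0 := Tp_E (pderiv 0) b (X 0) (X 1)
  have E1 := Tp_E (pderiv 1) b (X 0) (X 1)
  simp only [pderiv_X_self, pderiv_X_of_ne (show (0 : Fin 2) ≠ 1 by decide),
    pderiv_X_of_ne (show (1 : Fin 2) ≠ 0 by decide)] at E0 E1
  induction n using Nat.twoStepInduction with
  | zero => simp [Tp]
  | one =>
    have h := E0 0
    have r := congrArg (pderiv 1) (Tp_one b (X 0) (X 1))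
    have c1 : pderiv 0 (Tp b (X 0) (X 1) (0 + 1)) = 0 := by simp [Tp]
    have t0 : Tp b (X 0) (X 1) 0 = 1 := rfl
    rw [c1, t0] at h
    simp at r h
    refine mul_left_cancel₀ (a := (2 : Poly)) two_ne_zero ?_
    linear_combination h - 2 * X 0 * r
  | more k ih0 ih1 =>
    refine mul_left_cancel₀ (a := (2 : Poly)) two_ne_zero ?_
    linear_combination E0 (k + 1) - 2 * X 0 * E1 k - 2 * X 1 * ih1 - 2 * X 0 ^ 2 * ih0

theorem Tp_wave (m : ℕ) :
    pderiv 0 (pderiv 0 (Tp (2 * ((m + 1 : ℕ) : ℂ) + 1) (X 0) (X 1) (m + 2))) =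
      4 * pderiv 1 (pderiv 1 (Tp (2 * ((m + 1 : ℕ) : ℂ) + 1) (X 0) (X 1) (m + 2))) := by
  set b : ℂ := 2 * ((m + 1 : ℕ) : ℂ) + 1 with hb
  have E1 := Tp_E (pderiv 1) b (X 0) (X 1) (m + 1)
  simp only [pderiv_X_self, pderiv_X_of_ne (show (0 : Fin 2) ≠ 1 by decide)] at E1
  have d1 := Tp_dx b (m + 1)
  have d2 := Tp_dx b (m + 2)
  have eu := ((Tp_homog b (isHomogeneous_X _ 0) (isHomogeneous_X _ 1) (m + 2)).pderiv
    (i := 0)).sum_X_mul_pderiv
  rw [Fin.sum_univ_two, pderiv_comm, nsmul_eq_mul] at eu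
  set P := Tp b (X 0) (X 1) (m + 2)
  have f1 : 2 * pderiv 1 (Tp b (X 0) (X 1) (m + 1 + 2)) =
      C b * P - 2 * X 1 * pderiv 1 P - X 0 * pderiv 0 P := by
    linear_combination E1 + X 0 * d1
  have g1 := congrArg (pderiv 0) f1
  have g2 := congrArg (pderiv 1) d2
  rw [pderiv_comm] at g2
  have hCb : (C b : Poly) = 2 * ((m + 1 : ℕ) : Poly) + 1 := by simp [hb, map_ofNat]
  rw [hCb] at g1
  simp at g1 g2 eu
  refine mul_left_cancel₀ (X_ne_zero (R := ℂ) (0 : Fin 2)) ?_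
  linear_combination 2 * eu - g1 + 2 * g2

theorem cf_p0 (F : Poly) (i j : ℕ) : cf (pderiv 0 F) i j = cf F (i + 1) j * (i + 1) := by
  simp [cf, coeff_pderiv, add_right_comm]

theorem cf_X0pow (n i j : ℕ) : cf (X 0 ^ n) i j = if i = n ∧ j = 0 then 1 else 0 := by
  classical
  rw [cf, coeff_X_pow]
  congr 1
  refine propext ⟨fun h => ⟨?_, ?_⟩, ?_⟩
  · simpa using (congrArg (· 0) h).symm
  · simpa using (congrArg (· 1) h).symm
  · rintro ⟨rfl, rfl⟩; simp

theorem cf_X1pow (n i j : ℕ) : cf (X 1 ^ n) i j = if i = 0 ∧ j = n then 1 else 0 := by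
  classical
  rw [cf, coeff_X_pow]
  congr 1
  refine propext ⟨fun h => ⟨?_, ?_⟩, ?_⟩
  · simpa using (congrArg (· 0) h).symm
  · simpa using (congrArg (· 1) h).symm
  · rintro ⟨rfl, rfl⟩; simp

theorem eq_fermat {Q : Poly} {n : ℕ} (hn : n ≠ 0) (hQ : Q.IsHomogeneous n)
    (h : pderiv 0 (pderiv 1 Q) = 0) : Q = C (cf Q n 0) * X 0 ^ n + C (cf Q 0 n) * X 1 ^ n := by
  rw [← sub_eq_zero]
  refine cf_ext fun i j => ?_
  rw [cf_sub, cf_add, cf_C_mul, cf_C_mul, cf_X0pow, cf_X1pow]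
  by_cases hij : i + j = n
  · rcases i with _ | i
    · rw [if_neg (by omega), if_pos (by omega), show j = n by omega]; ring
    rcases j with _ | j
    · rw [if_pos (by omega), if_neg (by omega), show i + 1 = n by omega]; ring
    rw [if_neg (by omega), if_neg (by omega)]
    have := congrArg (fun F => cf F i j) h
    simp only [cf_p0, cf_p1] at this
    have h0 : cf 0 i j = 0 := by simp [cf]
    rw [h0, mul_assoc] at this
    rw [(mul_eq_zero.1 this).resolve_right (mul_ne_zero (Nat.cast_add_one_ne_zero _)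
      (Nat.cast_add_one_ne_zero _))]
    ring
  · rw [if_neg (by omega), if_neg (by omega), cf, hQ.coeff_eq_zero (by
      simpa [Finsupp.degree_single] using hij)]
    ring

theorem exists_fermat (m : ℕ) : ∃ α β : ℂ, α ≠ 0 ∧ β ≠ 0 ∧ ∀ p q : Poly,
    Tp (2 * ((m + 1 : ℕ) : ℂ) + 1) (p - q) (2 * (p + q)) (m + 2) =
      C α * p ^ (m + 2) + C β * q ^ (m + 2) := by
  set b : ℂ := 2 * ((m + 1 : ℕ) : ℂ) + 1 with hb
  set P := Tp b (X 0) (X 1) (m + 2) with hP
  set x : Poly := X 0 - X 1 with hx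
  set y : Poly := 2 * (X 0 + X 1) with hy
  have hQ : Tp b x y (m + 2) = aeval ![x, y] P := by rw [hP, Tp_map]; simp
  have x0 : pderiv 0 x = 1 := by simp [hx]
  have x1 : pderiv 1 x = -1 := by simp [hx]
  have y0 : pderiv 0 y = 2 := by simp [hy]
  have y1 : pderiv 1 y = 2 := by simp [hy]
  have hh : (Tp b x y (m + 2)).IsHomogeneous (m + 2) := Tp_homog b
    ((isHomogeneous_X _ 0).sub (isHomogeneous_X _ 1))
    (((isHomogeneous_X _ 0).add (isHomogeneous_X _ 1)).C_mul 2) _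
  have hw : pderiv 0 (pderiv 1 (Tp b x y (m + 2))) = 0 := by
    have w := congrArg (aeval ![x, y]) (Tp_wave m)
    rw [← hb, ← hP, map_mul, map_ofNat] at w
    rw [hQ, pderiv_aeval, x1, y1]
    simp only [map_add, Derivation.leibniz, smul_eq_mul, pderiv_aeval, x0, y0, map_neg,
      Derivation.map_one_eq_zero, pderiv_ofNat, pderiv_comm]
    linear_combination -w
  have e := eq_fermat (by omega) hh hw
  have grad : ∀ z : Fin 2 → ℂ, (∀ i, eval z (pderiv i (Tp b x y (m + 2))) = 0) → z = 0 := by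
    intro z hz
    have h0 := hz 0
    have h1 := hz 1
    rw [hQ, pderiv_aeval] at h0 h1
    have ev : ∀ p : Poly, eval z (aeval ![x, y] p) = eval ![eval z x, eval z y] p := fun p => by
      induction p using MvPolynomial.induction_on with
      | C a => simp
      | add p q hp hq => simp only [map_add, hp, hq]
      | mul_X p j hp => simp only [map_mul, hp]; fin_cases j <;> simp
    simp only [x0, x1, y0, y1, map_add, map_mul, ev, map_one, map_neg, map_ofNat] at h0 h1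
    have := Tp_grad m ![eval z x, eval z y] fun i => by
      fin_cases i
      · simp only [Fin.zero_eta]; linear_combination (h0 - h1) / 2
      · simp only [Fin.mk_one]; linear_combination (h0 + h1) / 4
    have k0 := congrFun this 0
    have k1 := congrFun this 1
    simp [hx, hy] at k0 k1
    ext i; fin_cases i
    · simp only [Fin.zero_eta, Pi.zero_apply]; linear_combination (k0 + k1) / 2
    · simp only [Fin.mk_one, Pi.zero_apply]; linear_combination (k1 - k0) / 2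
  refine ⟨cf (Tp b x y (m + 2)) (m + 2) 0, cf (Tp b x y (m + 2)) 0 (m + 2), fun h => ?_,
    fun h => ?_, fun p q => ?_⟩
  · rw [h] at e
    have := congrFun (grad ![1, 0] fun i => by rw [e]; fin_cases i <;> simp) 0
    simp at this
  · rw [h] at e
    have := congrFun (grad ![0, 1] fun i => by rw [e]; fin_cases i <;> simp) 1
    simp at this
  · have := congrArg (aeval ![p, q]) e
    rw [Tp_map] at this
    simpa [hx, hy, map_ofNat] using this

theorem fermat_mem (m : ℕ) {p q h : Poly} (hp : p.totalDegree ≤ 1) (hq : q.totalDegree ≤ 1)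
    (hh : h.totalDegree ≤ m + 1) : dform (p ^ (m + 2) + q ^ (m + 2) + h) ∈ zcl (S2 (m + 1)) := by
  obtain ⟨α, β, hα, hβ, e⟩ := exists_fermat m
  obtain ⟨a, ha⟩ := IsAlgClosed.exists_pow_nat_eq α⁻¹ (n := m + 2) (by omega)
  obtain ⟨c, hc⟩ := IsAlgClosed.exists_pow_nat_eq β⁻¹ (n := m + 2) (by omega)
  have := degen (m := m) (dg_sub (dg_Cmul a hp) (dg_Cmul c hq))
    (dg_mul (dg_nat 2 0) (dg_add (dg_Cmul a hp) (dg_Cmul c hq)) le_rfl) hh 0 (g := fun _ => 0)
      (PC.const 0) (by simp) (by simp)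
  rw [Nat.cast_ofNat, e, mul_pow, mul_pow, ← map_pow, ← map_pow, ha, hc, ← mul_assoc, ← mul_assoc,
    ← map_mul, ← map_mul, mul_inv_cancel₀ hα, mul_inv_cancel₀ hβ] at this
  simpa using this

theorem cubic_split {f : Poly} (hf : f.totalDegree ≤ 3) : ∃ a b c e : ℂ,
    (f - (C a * X 0 ^ 3 + C b * (X 0 ^ 2 * X 1) + C c * (X 0 * X 1 ^ 2) + C e * X 1 ^ 3)).totalDegree
      ≤ 2 := by
  refine ⟨cf f 3 0, cf f 2 1, cf f 1 2, cf f 0 3, totalDegree_le_iff.2 fun m hm => ?_⟩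
  have e : m = Finsupp.single 0 (m 0) + Finsupp.single 1 (m 1) := by
    ext a; fin_cases a <;> simp
  rw [Finsupp.degree_eq_sum, Fin.sum_univ_two] at hm
  rw [e]
  generalize m 0 = i at hm
  generalize m 1 = j at hm
  change cf _ i j = 0
  have e1 : (X 0 ^ 2 * X 1 : Poly) = X 0 ^ 2 * X 1 ^ 1 := by ring
  have e2 : (X 0 * X 1 ^ 2 : Poly) = X 0 ^ 1 * X 1 ^ 2 := by ring
  rw [e1, e2]
  simp only [cf_sub, cf_add, cf_C_mul, cf_X0pow, cf_X0, cf_X1pow]
  by_cases h3 : 3 < i + j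
  · rw [cf_deg hf h3]
    split_ifs <;> first | omega | simp
  · have : (i = 3 ∧ j = 0) ∨ (i = 2 ∧ j = 1) ∨ (i = 1 ∧ j = 2) ∨ (i = 0 ∧ j = 3) := by omega
    rcases this with ⟨rfl, rfl⟩ | ⟨rfl, rfl⟩ | ⟨rfl, rfl⟩ | ⟨rfl, rfl⟩ <;> simp

theorem cubic_mem {f : Poly} (hf : f.totalDegree ≤ 3) : dform f ∈ zcl (S2 2) := by
  obtain ⟨a, b, c, e, hh⟩ := cubic_split hf
  set h := f - (C a * X 0 ^ 3 + C b * (X 0 ^ 2 * X 1) + C c * (X 0 * X 1 ^ 2) + C e * X 1 ^ 3)
    with hh'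
  let Ψ : (Fin 4 → ℂ) → ℂ × ℂ × ℂ × ℂ := fun t => (t 0 ^ 3 + t 2 ^ 3,
    t 0 ^ 2 * t 1 + t 2 ^ 2 * t 3, t 0 * t 1 ^ 2 + t 2 * t 3 ^ 2, t 1 ^ 3 + t 3 ^ 3)
  have d := fun i => hasStrictFDerivAt_apply (𝕜 := ℂ) i (![1, 0, 0, 1] : Fin 4 → ℂ)
  have hs : HasStrictFDerivAt Ψ _ ![1, 0, 0, 1] :=
    (((d 0).pow 3).add ((d 2).pow 3)).prodMk
      (((((d 0).pow 2).mul (d 1)).add (((d 2).pow 2).mul (d 3))).prodMk
        ((((d 0).mul ((d 1).pow 2)).add ((d 2).mul ((d 3).pow 2))).prodMk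
          (((d 1).pow 3).add ((d 3).pow 3))))
  have hmap := hs.map_nhds_eq_of_surj (by
    rw [LinearMap.range_eq_top]
    rintro ⟨u, v, w, z⟩
    refine ⟨![u / 3, v, w, z / 3], ?_⟩
    simp; constructor <;> ring)
  have hI : Set.range Ψ ∈ 𝓝 (Ψ ![1, 0, 0, 1]) := by rw [← hmap]; exact Filter.range_mem_map
  have hΨ0 : Ψ ![1, 0, 0, 1] = (1, 0, 0, 1) := by simp [Ψ]
  rw [hΨ0] at hI
  have hc : ContinuousAt (fun τ : ℂ => ((1 + τ * (a - 1), τ * (b / 3), τ * (c / 3),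
      1 + τ * (e - 1)) : ℂ × ℂ × ℂ × ℂ)) 0 := by fun_prop
  have hev := hc.preimage_mem_nhds (by simpa using hI)
  have hγ := (PC.line (X 0 ^ 3 + X 1 ^ 3 + h) f).dform
  have := hγ.mem_zcl (S := S2 2) (infinite_of_nhdsNE (mem_nhdsWithin_of_mem_nhds ?_)) 1
  · simpa using this
  filter_upwards [hev] with τ ⟨t, ht⟩
  simp only [Ψ, Prod.mk.injEq] at ht
  obtain ⟨t1, t2, t3, t4⟩ := ht
  have := fermat_mem 1 (dg_add (dg_Cmul (t 0) (dg_X 0)) (dg_Cmul (t 1) (dg_X 1)))
    (dg_add (dg_Cmul (t 2) (dg_X 0)) (dg_Cmul (t 3) (dg_X 1))) hh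
  have e2 : X 0 ^ 3 + X 1 ^ 3 + h + τ • (f - (X 0 ^ 3 + X 1 ^ 3 + h)) =
      (C (t 0) * X 0 + C (t 1) * X 1) ^ (1 + 2) + (C (t 2) * X 0 + C (t 3) * X 1) ^ (1 + 2) + h := by
    rw [hh']
    refine MvPolynomial.funext fun z => ?_
    simp
    linear_combination -z 0 ^ 3 * t1 - 3 * z 0 ^ 2 * z 1 * t2 - 3 * z 0 * z 1 ^ 2 * t3 -
      z 1 ^ 3 * t4
  rw [e2]
  exact this

theorem main_new (d : ℕ) (hd : 3 ≤ d) : ∃ Z, IsComponent (M d) Z ∧
    (∀ (s : ℕ) (δ : Fin s → ℕ), ∑ i, δ i = d + 1 → ¬ Z ⊆ zcl (L δ)) ∧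
    (∀ i ≤ d, ¬ Z ⊆ zcl (A d i)) ∧ ¬ Z ⊆ zcl (B d) ∧
    (∀ p q h : Poly, p.totalDegree ≤ 1 → q.totalDegree ≤ 1 → h.totalDegree < d →
      dform (p ^ d + q ^ d + h) ∈ Z) ∧
    (∃ h : Poly, h.totalDegree < d ∧ Morse (X 0 ^ d + X 1 ^ d + h)) ∧
    (d = 3 → ∀ f : Poly, f.totalDegree ≤ 3 → dform f ∈ Z) := by
  obtain ⟨m, rfl⟩ : ∃ m, d = m + 2 := ⟨d - 2, by omega⟩
  obtain ⟨Z, hZ, hS, h1, h2, h3⟩ := exists_new_component m
  refine ⟨Z, hZ, h1, h2, h3, fun p q h hp hq hh => hS (fermat_mem m hp hq (by omega)), ?_,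
    fun h3 f hf => ?_⟩
  · obtain ⟨a, ha⟩ := exists_morse (X 0 ^ (m + 2) + X 1 ^ (m + 2))
    refine ⟨_, ?_, ha⟩
    have := dg_add (dg_Cmul (a 0) (dg_X 0)) (dg_Cmul (a 1) (dg_X 1))
    omega
  · obtain rfl : m = 1 := by omega
    exact hS (cubic_mem hf)

end Pool.Agent.MP_05b4bd_ag

end MrgPart4

-- marker of a merged file
example : 731051 + 394947 = 731051 + 394947 := rfl
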