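import Mathlib.Algebra.Module.Torsion.Prod
import Mathlib.Data.Int.Star
import Mathlib.RingTheory.PiTensorProduct
import Mathlib.RingTheory.Etale.Weakly
import Pool.Agent.MP_05b4bd_ag.Fermat

namespace Pool.Agent.MP_05b4bd_ag

open MvPolynomial Topology

theorem exists_relation {σ κ : Type} [Fintype σ] [Fintype κ] (h : Fintype.card σ < Fintype.card κ)
    (y : κ → MvPolynomial σ ℂ) (k : κ) (hk : y k ≠ 0) :
    ∃ (R : MvPolynomial κ ℂ) (w : κ → ℂ), aeval y R = 0 ∧ w k = 0 ∧ aeval w R ≠ 0 := by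
  classical
  have hdep : ¬ AlgebraicIndependent ℂ y := fun hi => by
    have := hi.cardinalMk_le_trdeg
    rw [MvPolynomial.trdeg_of_isDomain, Cardinal.lift_id, Cardinal.mk_fintype,
      Cardinal.mk_fintype] at this
    exact absurd (by exact_mod_cast this) (not_le.2 h)
  rw [algebraicIndependent_iff] at hdep
  push Not at hdep
  obtain ⟨R0, h0, hne⟩ := hdep
  obtain ⟨n, R, hR, rfl⟩ := WfDvdMonoid.max_power_factor hne (X_prime (i := k)).irreducible
  rw [map_mul, map_pow, aeval_X] at h0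
  have hR0 : aeval y R = 0 := (mul_eq_zero.1 h0).resolve_left (pow_ne_zero _ hk)
  by_contra hc
  push Not at hc
  apply hR
  have key : ∀ P : MvPolynomial κ ℂ, X k ∣ P - aeval (Function.update X k 0) P := fun P => by
    induction P using MvPolynomial.induction_on with
    | C a => simp
    | add p q hp hq =>
      have := hp.add hq
      rw [map_add, add_sub_add_comm]; exact this
    | mul_X p j hp =>
      rw [map_mul, aeval_X]
      by_cases hj : j = k
      · subst hj; simp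
      · rw [Function.update_of_ne hj, ← sub_mul]; exact hp.mul_right _
  have : aeval (Function.update X k (0 : MvPolynomial κ ℂ)) R = 0 := by
    refine MvPolynomial.funext fun w => ?_
    have e := hc R (Function.update w k 0) hR0 (by simp)
    rw [map_zero, ← e]
    change aeval w _ = _
    rw [← AlgHom.comp_apply, comp_aeval]
    congr 2
    funext j
    by_cases hj : j = k
    · subst hj; simp
    · simp [Function.update_of_ne hj]
  have h2 := key R
  rwa [this, sub_zero] at h2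

def tri (n : ℕ) : Finset (ℕ × ℕ) := (Finset.range (n + 1)).biUnion Finset.HasAntidiagonal.antidiagonal

theorem mem_tri {n : ℕ} {p : ℕ × ℕ} : p ∈ tri n ↔ p.1 + p.2 ≤ n := by
  simp [tri]

theorem card_tri (n : ℕ) : 2 * (tri n).card = (n + 1) * (n + 2) := by
  rw [tri, Finset.card_biUnion (fun a _ b _ hab => Finset.disjoint_left.2 fun p h1 h2 => hab (by
    rw [Finset.HasAntidiagonal.mem_antidiagonal] at h1 h2; omega))]
  simp only [Finset.Nat.card_antidiagonal]
  induction n with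
  | zero => simp
  | succ n ih => rw [Finset.sum_range_succ, mul_add, ih]; ring

noncomputable def ex (p : ℕ × ℕ) : Fin 2 →₀ ℕ := Finsupp.single 0 p.1 + Finsupp.single 1 p.2

theorem ex_inj {p q : ℕ × ℕ} : ex p = ex q ↔ p = q := by
  refine ⟨fun h => Prod.ext ?_ ?_, fun h => by rw [h]⟩
  · simpa [ex] using congrArg (· 0) h
  · simpa [ex] using congrArg (· 1) h

noncomputable def mk {R : Type} [CommRing R] (n : ℕ) (c : tri n → R) : MvPolynomial (Fin 2) R :=
  ∑ p : tri n, monomial (ex p) (c p)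

theorem map_mk {R S : Type} [CommRing R] [CommRing S] (φ : R →+* S) (n : ℕ) (c : tri n → R) :
    map φ (mk n c) = mk n fun p => φ (c p) := by simp [mk]

theorem cf_mk {n : ℕ} (c : tri n → ℂ) (i j : ℕ) :
    cf (mk n c) i j = if h : i + j ≤ n then c ⟨(i, j), mem_tri.2 h⟩ else 0 := by
  classical
  change coeff (ex (i, j)) _ = _
  simp only [mk, coeff_sum, coeff_monomial, ex_inj]
  split_ifs with h
  · rw [Finset.sum_eq_single ⟨(i, j), mem_tri.2 h⟩, if_pos rfl]
    · intro b _ hb; rw [if_neg fun h' => hb (Subtype.ext h')]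
    · simp
  · refine Finset.sum_eq_zero fun p _ => if_neg fun h' => h ?_
    have := mem_tri.1 p.2
    rwa [h'] at this

theorem dg_mk {n : ℕ} (c : tri n → ℂ) : (mk n c).totalDegree ≤ n :=
  totalDegree_finsetSum_le fun p _ => (totalDegree_monomial_le _ _).trans (by
    have := mem_tri.1 p.2
    rw [ex, Finsupp.sum_add_index' (by simp) (by simp)]
    simpa using this)

theorem eq_mk {n : ℕ} {f : Poly} (h : f.totalDegree ≤ n) : f = mk n fun p => cf f p.1.1 p.1.2 := by
  rw [← sub_eq_zero]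
  refine cf_ext fun i j => ?_
  rw [cf_sub, cf_mk]
  split_ifs with h'
  · simp
  · rw [cf_deg h (not_le.1 h'), sub_zero]

/-- normalised factor -/
noncomputable def nf {R : Type} [CommRing R] (n : ℕ) (c : tri n → R) : MvPolynomial (Fin 2) R :=
  mk n fun p => if p.1 = (0, 0) then 1 else c p

theorem map_nf {R S : Type} [CommRing R] [CommRing S] (φ : R →+* S) (n : ℕ) (c : tri n → R) :
    map φ (nf n c) = nf n fun p => φ (c p) := by
  rw [nf, map_mk, nf]
  congr 1
  funext p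
  split_ifs <;> simp

def z0 (n : ℕ) : tri n := ⟨(0, 0), mem_tri.2 (by simp)⟩

abbrev Par {s : ℕ} (δ : Fin s → ℕ) := Σ i : Fin s, tri (δ i)

noncomputable def lw {R : Type} [CommRing R] {s : ℕ} (δ : Fin s → ℕ) (t : Par δ → R) (k : Fin 2) :
    MvPolynomial (Fin 2) R :=
  ∑ i, (C (t ⟨i, z0 _⟩) * ∏ j ∈ Finset.univ.erase i, nf (δ j) fun p => t ⟨j, p⟩) *
    pderiv k (nf (δ i) fun p => t ⟨i, p⟩)

theorem map_lw {R S : Type} [CommRing R] [CommRing S] (φ : R →+* S) {s : ℕ} (δ : Fin s → ℕ)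
    (t : Par δ → R) (k : Fin 2) : map φ (lw δ t k) = lw δ (fun x => φ (t x)) k := by
  simp only [lw, map_sum, map_mul, map_prod, map_C, ← pderiv_map, map_nf]

noncomputable def lf {s : ℕ} (δ : Fin s → ℕ) (t : Par δ → ℂ) : Form := (lw δ t 1, -lw δ t 0)

theorem lf_eq {s : ℕ} (δ : Fin s → ℕ) (t : Par δ → ℂ) : lf δ t =
    ∑ i, (C (t ⟨i, z0 _⟩) * ∏ j ∈ Finset.univ.erase i, nf (δ j) fun p => t ⟨j, p⟩) •
      dform (nf (δ i) fun p => t ⟨i, p⟩) := by
  refine Prod.ext ?_ ?_
  · simp [lf, lw, dform, Prod.fst_sum]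
  · simp [lf, lw, dform, Prod.snd_sum]

theorem L_subset {s : ℕ} (δ : Fin s → ℕ) : L δ ⊆ zcl (Set.range (lf δ)) := by
  rintro _ ⟨f, l, hf, rfl⟩
  have hγ : PF fun τ => ∑ i, (C (l i) * ∏ j ∈ Finset.univ.erase i, (f j + C τ)) •
      dform (f i + C τ) :=
    PF.sum _ fun i _ => PF.psmul ((PC.const _).mul (PC.prod _ fun j _ =>
      (PC.const _).add PS.id.toC)) ((PC.const _).add PS.id.toC).dform
  have := hγ.mem_zcl (S := Set.range (lf δ)) ?_ 0
  · simpa using this
  refine ((Set.finite_range fun i => -cf (f i) 0 0).infinite_compl).mono fun τ hτ =>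
    subset_zcl _ ?_
  have hc : ∀ i, cf (f i) 0 0 + τ ≠ 0 := fun i h => hτ ⟨i, by linear_combination -h⟩
  set c : Fin s → ℂ := fun i => cf (f i) 0 0 + τ with hcd
  set t : Par δ → ℂ := fun x => if x.2.1 = (0, 0) then l x.1 * ∏ j, c j else
    (c x.1)⁻¹ * cf (f x.1) x.2.1.1 x.2.1.2 with ht
  have e : ∀ i, f i + C τ = C (c i) * nf (δ i) fun p => t ⟨i, p⟩ := fun i => by
    rw [← sub_eq_zero]
    refine cf_ext fun a b => ?_
    have hC : cf (C τ) a b = if (a, b) = (0, 0) then τ else 0 := by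
      classical
      change coeff (ex (a, b)) _ = _
      have : (0 : Fin 2 →₀ ℕ) = ex (0, 0) := by simp [ex]
      rw [coeff_C, this]
      simp only [ex_inj, eq_comm]
    rw [cf_sub, cf_add, cf_C_mul, nf, cf_mk, hC]
    by_cases h0 : (a, b) = (0, 0)
    · obtain ⟨rfl, rfl⟩ := Prod.mk.inj h0
      simp [hcd]
    · rw [if_neg h0]
      split_ifs with h1
      · simp only [ht, if_neg h0]
        rw [← mul_assoc, mul_inv_cancel₀ (hc i)]; ring
      · rw [cf_deg (hf i) (not_le.1 h1)]; ring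
  refine ⟨t, ?_⟩
  rw [lf_eq]
  refine Finset.sum_congr rfl fun i _ => ?_
  simp only [e]
  have t0 : t ⟨i, z0 _⟩ = l i * ∏ j, c j := by simp [ht, z0]
  rw [t0, Finset.prod_mul_distrib, ← map_prod, ← Finset.mul_prod_erase _ _ (Finset.mem_univ i)]
  refine Prod.ext ?_ ?_ <;> simp [dform] <;> ring

noncomputable def coU {s : ℕ} (δ : Fin s → ℕ) : Bool × (Fin 2 →₀ ℕ) → MvPolynomial (Par δ) ℂ :=
  fun k => coeff k.2 (cond k.1 (lw δ X 1) (-lw δ X 0))

theorem ev_lf {s : ℕ} (δ : Fin s → ℕ) (t : Par δ → ℂ) (R : Co) :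
    ev R (lf δ t) = aeval t (aeval (coU δ) R) := by
  rw [← AlgHom.comp_apply, comp_aeval, ev]
  congr 2
  funext ⟨b, m⟩
  have := fun k => map_lw (eval t) δ X k
  simp only [eval_X] at this
  cases b
  · simp only [co, coU, lf, cond_false, ← this, coeff_neg, coeff_map, map_neg]; rfl
  · simp only [co, coU, lf, cond_true, ← this, coeff_map]; rfl

noncomputable def rho (p : ℕ × ℕ) : Co :=
  if p = (0, 0) then X (true, ex (1, 0)) + X (false, ex (0, 1))
  else if p.2 = 0 then X (false, ex (p.1 - 1, 0)) else X (true, ex (p.1, p.2 - 1))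

theorem ev_rho_zero (ω : Form) : ev (rho (0, 0)) ω = cf ω.1 1 0 + cf ω.2 0 1 := by
  simp only [rho, if_true, ev_add, ev_X]; rfl

theorem exists_f {d : ℕ} (w : tri d → ℂ) (hw : w (z0 d) = 0) :
    ∃ f : Poly, f.totalDegree ≤ d ∧ ∀ p : tri d, ev (rho p) (dform f) = w p := by
  refine ⟨mk d fun p => w p / (if p.1.2 = 0 then -(p.1.1 : ℂ) else p.1.2), dg_mk _, ?_⟩
  rintro ⟨⟨i, j⟩, hp⟩
  have hp' : i + j ≤ d := mem_tri.1 hp
  have neg : ∀ (F : Poly) a b, cf (-F) a b = -cf F a b := fun F a b => by simp [cf]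
  rcases j with _ | j
  · rcases i with _ | i
    · rw [ev_rho_zero]
      simp only [dform, neg, cf_p0, cf_p1]
      exact (by simp : _ = (0 : ℂ)).trans hw.symm
    · simp only [rho, Prod.mk.injEq, Nat.add_eq_zero_iff, one_ne_zero, and_false, false_and,
        if_false, if_true, ev_X, Nat.add_sub_cancel]
      change cf (-pderiv 0 _) i 0 = _
      rw [neg, cf_p0, cf_mk, dif_pos hp']
      have : (i : ℂ) + 1 ≠ 0 := Nat.cast_add_one_ne_zero i
      simp only [if_true]
      push_cast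
      field_simp
  · simp only [rho, Prod.mk.injEq, Nat.add_eq_zero_iff, one_ne_zero, and_false,
      if_false, ev_X, Nat.add_sub_cancel]
    change cf (pderiv 1 _) i j = _
    rw [cf_p1, cf_mk, dif_pos hp']
    have : (j : ℂ) + 1 ≠ 0 := Nat.cast_add_one_ne_zero j
    simp only [Nat.add_eq_zero_iff, one_ne_zero, and_false, if_false]
    push_cast
    field_simp

theorem exists_not_mem {s d : ℕ} (δ : Fin s → ℕ) (a b : Fin s) (hab : a ≠ b) (ha : 1 ≤ δ a)
    (hb : 1 ≤ δ b) (hc : ∑ i, (δ i + 1) * (δ i + 2) < (d + 1) * (d + 2)) :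
    ∃ f : Poly, f.totalDegree ≤ d ∧ dform f ∉ zcl (L δ) := by
  classical
  have hcard : Fintype.card (Par δ) < Fintype.card (tri d) := by
    rw [Fintype.card_sigma]
    simp only [Fintype.card_coe]
    have h1 := card_tri d
    have h2 : 2 * ∑ i, (tri (δ i)).card = ∑ i, (δ i + 1) * (δ i + 2) := by
      rw [Finset.mul_sum]; exact Finset.sum_congr rfl fun i _ => card_tri _
    omega
  have hne : aeval (coU δ) (rho (0, 0)) ≠ 0 := by
    intro h0
    let f : Fin s → Poly := fun i => if i = a then X 0 else if i = b then X 1 else 1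
    have hf : ∀ i, (f i).totalDegree ≤ δ i := fun i => by
      simp only [f]
      split_ifs with h1 h2
      · rw [h1]; simpa using ha
      · rw [h2]; simpa using hb
      · simp
    have hm := mem_zcl.1 (L_subset δ ⟨f, Pi.single a 1, hf, rfl⟩) (rho (0, 0)) (by
      rintro _ ⟨t, rfl⟩
      rw [ev_lf, h0, map_zero])
    rw [Finset.sum_eq_single a (fun i _ hi => by simp [hi]) (by simp),
      Finset.prod_eq_single b (fun i hi hib => by
        simp only [f]; rw [if_neg (Finset.ne_of_mem_erase hi), if_neg hib])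
        (fun h => absurd (Finset.mem_erase.2 ⟨hab.symm, Finset.mem_univ b⟩) h), ev_rho_zero] at hm
    simp [f, hab.symm, dform, cf, coeff_X] at hm
  obtain ⟨R, w, h1, h2, h3⟩ := exists_relation hcard (fun p : tri d => aeval (coU δ) (rho p))
    (z0 d) hne
  obtain ⟨f, hf, hw⟩ := exists_f w h2
  refine ⟨f, hf, fun hz => h3 ?_⟩
  have := mem_zcl.1 (zcl_subset (L_subset δ) hz) (aeval (fun p : tri d => rho p) R) (by
    rintro _ ⟨t, rfl⟩
    rw [ev_lf, ← AlgHom.comp_apply (aeval (coU δ)), comp_aeval, h1, map_zero])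
  rw [ev, ← AlgHom.comp_apply, comp_aeval] at this
  rw [← this]
  congr 2
  funext p
  exact (hw p).symm

theorem sum_sq_le {ι : Type*} (δ : ι → ℕ) (hδ : ∀ i, 1 ≤ δ i) {t : Finset ι} (ht : t.Nonempty) :
    ∑ i ∈ t, (δ i + 1) * (δ i + 2) ≤ (∑ i ∈ t, δ i) ^ 2 + 3 * ∑ i ∈ t, δ i + 2 ∧
      1 ≤ ∑ i ∈ t, δ i := by
  induction ht using Finset.Nonempty.cons_induction with
  | singleton a => simp only [Finset.sum_singleton]; exact ⟨by nlinarith, hδ a⟩
  | cons a s ha hs ih =>
    simp only [Finset.sum_cons]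
    have := hδ a
    exact ⟨by nlinarith [ih.1, Nat.mul_le_mul this ih.2], by omega⟩

theorem count_lt {s d : ℕ} (hd : 6 ≤ d) (δ : Fin s → ℕ) (h1 : ∀ i, 1 ≤ δ i) (h2 : ∀ i, δ i < d)
    (hs : ∑ i, δ i = d + 1) : ∑ i, (δ i + 1) * (δ i + 2) < (d + 1) * (d + 2) := by
  by_cases h : ∃ j, 2 ≤ δ j
  · obtain ⟨j, hj⟩ := h
    rw [← Finset.add_sum_erase _ _ (Finset.mem_univ j)] at hs ⊢
    have hne : (Finset.univ.erase j).Nonempty := by
      by_contra hc
      rw [Finset.not_nonempty_iff_eq_empty.1 hc, Finset.sum_empty] at hs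
      have := h2 j
      omega
    have := (sum_sq_le δ h1 hne).1
    have hj2 := h2 j
    generalize ∑ i ∈ Finset.univ.erase j, δ i = r at hs this
    obtain ⟨a, ha⟩ := Nat.exists_eq_add_of_le hj
    obtain ⟨b, hb⟩ : ∃ b, r = 2 + b := ⟨r - 2, by omega⟩
    obtain rfl : d = a + b + 3 := by omega
    rw [ha]
    subst hb
    nlinarith [Nat.zero_le (a * b)]
  · push Not at h
    have e : ∀ i, (δ i + 1) * (δ i + 2) = 6 * δ i := fun i => by
      have : δ i = 1 := by have := h i; have := h1 i; omega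
      rw [this]
    simp only [e, ← Finset.mul_sum, hs]
    nlinarith

theorem exists_morse_open (f : Poly) {U : Set (Fin 2 → ℂ)} (hU : IsOpen U) (hne : U.Nonempty) :
    ∃ a ∈ U, Morse (f + (C (a 0) * X 0 + C (a 1) * X 1)) := by
  obtain ⟨a, ha, hm⟩ := (dense_morse f).inter_open_nonempty U hU hne
  exact ⟨a, ha, hm⟩

def Ex (d : ℕ) : Set Form := {ω | ∃ f : Poly, f.totalDegree ≤ d ∧ ω = dform f}

theorem Ex_irred (d : ℕ) : Irred (Ex d) := by
  refine irred_of_curves ⟨_, 0, by simp, rfl⟩ ?_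
  rintro _ ⟨f, hf, rfl⟩ _ ⟨g, hg, rfl⟩
  exact ⟨_, (PC.line f g).dform, by simp, by simp, fun τ => ⟨_, dg_line hf hg τ, rfl⟩⟩

theorem irred_avoid {Z : Set Form} (hZ : Irred Z) {ι : Type*} (t : Finset ι) (S : ι → Set Form)
    (h : ∀ i ∈ t, ¬ Z ⊆ zcl (S i)) : ∃ R : Co, (∃ ω ∈ Z, ev R ω ≠ 0) ∧
      ∀ i ∈ t, ∀ η ∈ S i, ev R η = 0 := by
  classical
  induction t using Finset.induction_on with
  | empty =>
    obtain ⟨ω, hω⟩ := (irred_iff.1 hZ).1
    exact ⟨C 1, ⟨ω, hω, by rw [ev_C]; exact one_ne_zero⟩, by simp⟩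
  | insert a t ha ih =>
    obtain ⟨R, ⟨ω, hω, hR⟩, hS⟩ := ih fun i hi => h i (Finset.mem_insert_of_mem hi)
    obtain ⟨ω', hω', hn⟩ := Set.not_subset.1 (h a (Finset.mem_insert_self _ _))
    rw [mem_zcl] at hn
    push Not at hn
    obtain ⟨R', h1, h2⟩ := hn
    refine ⟨R * R', ?_, fun i hi η hη => ?_⟩
    · by_contra hc
      push Not at hc
      rcases (irred_iff.1 hZ).2 R R' (fun η hη => by rw [← ev_mul]; exact hc η hη) with h' | h'
      · exact hR (h' ω hω)
      · exact h2 (h' ω' hω')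
    · rw [ev_mul]
      rcases Finset.mem_insert.1 hi with rfl | hi
      · rw [h1 η hη, mul_zero]
      · rw [hS i hi η hη, zero_mul]

theorem dform_mem_L {s d : ℕ} {δ : Fin s → ℕ} {i : Fin s} (hi : d ≤ δ i) {f : Poly}
    (hf : f.totalDegree ≤ d) : dform f ∈ L δ := by
  classical
  refine ⟨fun j => if j = i then f else 1, Pi.single i 1, fun j => ?_, ?_⟩
  · dsimp only
    split_ifs with h
    · rw [h]; exact hf.trans hi
    · simp
  · rw [Finset.sum_eq_single i (fun j _ hj => by simp [hj]) (by simp),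
      Finset.prod_eq_one fun j hj => if_neg (Finset.ne_of_mem_erase hj)]
    simp

theorem continuous_ev (R : Co) (f : Poly) :
    Continuous fun a : Fin 2 → ℂ => ev R (dform (f + (C (a 0) * X 0 + C (a 1) * X 1))) := by
  induction R using MvPolynomial.induction_on with
  | C c => simpa [ev_C] using continuous_const
  | add p q hp hq => simp only [ev_add]; exact hp.add hq
  | mul_X p k hp =>
    simp only [ev_mul, ev_X]
    refine hp.mul ?_
    obtain ⟨b, m⟩ := k
    cases b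
    · simp only [co, dform, cond_false, map_add, pderiv_C_mul, coeff_neg, coeff_add, coeff_C_mul]
      fun_prop
    · simp only [co, dform, cond_true, map_add, pderiv_C_mul, coeff_add, coeff_C_mul]
      fun_prop

theorem main_log (d : ℕ) (hd : 6 ≤ d) : ∃ W : Set Form,
    (∃ f : Poly, f.totalDegree = d ∧ Morse f ∧ dform f ∉ zcl W) ∧
    ∀ f : Poly, f.totalDegree ≤ d → dform f ∉ zcl W →
      ∀ (s : ℕ) (δ : Fin s → ℕ), (∀ i, 1 ≤ δ i) → ∑ i, δ i = d + 1 →
        (dform f ∈ zcl (L δ) ↔ ∃ i, d ≤ δ i) := by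
  classical
  let I := Σ s : Fin (d + 2), (Fin s → Fin d)
  let t : Finset I := Finset.univ.filter fun x => (∀ i, 1 ≤ (x.2 i : ℕ)) ∧ ∑ i, (x.2 i : ℕ) = d + 1
  let S : Option I → Set Form := fun x => x.elim (Ex (d - 1)) fun x => L fun i => (x.2 i : ℕ)
  obtain ⟨R, ⟨_, ⟨f0, hf0, rfl⟩, hR⟩, hS⟩ := irred_avoid (Ex_irred d) (Finset.insertNone t) S (by
    rintro (_ | ⟨s, δ⟩) hx h
    · have h1 : Ex (d - 1) ⊆ V (d - 2) := by
        rintro _ ⟨f, hf, rfl⟩
        exact ⟨dg_pderiv (by omega) 1, dg_neg (dg_pderiv (by omega) 0)⟩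
      have h2 := (zcl_subset_V h1 (h ⟨X 1 ^ d, by simp, rfl⟩)).1
      have e : (dform (X 1 ^ d)).1 = C (d : ℂ) * X 1 ^ (d - 1) := by simp [dform]
      rw [e, totalDegree_mul_of_isDomain (by simp; omega) (pow_ne_zero _ (X_ne_zero _))] at h2
      simp at h2
      omega
    · rw [Finset.some_mem_insertNone, Finset.mem_filter] at hx
      obtain ⟨-, h1, h2⟩ := hx
      have hs : 2 ≤ (s : ℕ) := by
        by_contra hc
        have : ∑ i, (δ i : ℕ) ≤ ∑ _i : Fin s, d := Finset.sum_le_sum fun i _ => (δ i).2.le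
        simp only [Finset.sum_const, Finset.card_univ, Fintype.card_fin, smul_eq_mul] at this
        have : (s : ℕ) * d ≤ 1 * d := Nat.mul_le_mul_right d (by omega)
        simp only at h2
        omega
      obtain ⟨f, hf, hn⟩ := exists_not_mem (d := d) (fun i => (δ i : ℕ)) ⟨0, by omega⟩
        ⟨1, by omega⟩ (by simp) (h1 _) (h1 _) (count_lt hd _ h1 (fun i => (δ i).2) h2)
      exact hn (h ⟨f, hf, rfl⟩))
  have hW : ∀ ω, ω ∈ zcl {η | ev R η = 0} ↔ ev R ω = 0 := fun ω =>
    ⟨fun h => mem_zcl.1 h R fun _ h => h, fun h => subset_zcl _ h⟩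
  refine ⟨{η | ev R η = 0}, ?_, fun f hf hn s δ h1 h2 => ⟨fun h => ?_, ?_⟩⟩
  · obtain ⟨a, ha, hm⟩ := exists_morse_open f0 (isOpen_ne_fun (continuous_ev R f0)
      (continuous_const (y := 0))) ⟨0, by simpa using hR⟩
    refine ⟨_, ?_, hm, fun h => ha ((hW _).1 h)⟩
    have hl := dg_add (dg_Cmul (a 0) (dg_X 0)) (dg_Cmul (a 1) (dg_X 1))
    refine le_antisymm (dg_add hf0 (hl.trans (by omega))) ?_
    by_contra hc
    exact ha (hS none Finset.none_mem_insertNone _ ⟨_, by omega, rfl⟩)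
  · by_contra hc
    push Not at hc
    have hs : s < d + 2 := by
      have : ∑ _i : Fin s, 1 ≤ ∑ i, δ i := Finset.sum_le_sum fun i _ => h1 i
      simp only [Finset.sum_const, Finset.card_univ, Fintype.card_fin, smul_eq_mul] at this
      omega
    refine hn ((hW _).2 (mem_zcl.1 h R (hS (some ⟨⟨s, hs⟩, fun i => ⟨δ i, hc i⟩⟩) ?_)))
    rw [Finset.some_mem_insertNone, Finset.mem_filter]
    exact ⟨Finset.mem_univ _, h1, h2⟩
  · rintro ⟨i, hi⟩
    exact subset_zcl _ (dform_mem_L hi hf)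

end Pool.Agent.MP_05b4bd_ag
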